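import Pool.Agent.Y638.WF.Defs

set_option autoImplicit false

/-! # Maxima of integral formulas -/

namespace Pool.Agent.Y638.WF

open Finset

variable {ι : Type} {D : ι → Type} {w q : ℕ}

/-- a maximum of formulas tests whether one of them is positive -/
theorem exists_max {κ : Type} (V : ℕ) (P : (∀ i, D i) → Prop) (s : Finset κ)
    (G : κ → Fml ι D w q) (hG : ∀ k, (G k).Small V P) :
    ∃ F : Fml ι D w q, F.size = ∑ k ∈ s, (G k).size ∧ F.Small V P ∧
      ∀ x, (0 < F.eval x ↔ ∃ k ∈ s, 0 < (G k).eval x) := by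
  classical
  induction s using Finset.induction_on with
  | empty =>
    refine ⟨.const 0, rfl, ?_, fun x => ?_⟩
    · intro x _
      simp [Fml.eval]
    · simp [Fml.eval]
  | insert a s ha ih =>
    obtain ⟨F, h1, h2, h3⟩ := ih
    refine ⟨.max (G a) F, ?_, ⟨hG a, h2⟩, fun x => ?_⟩
    · rw [sum_insert ha, ← h1]
      rfl
    · simp only [Fml.eval, lt_max_iff, h3, mem_insert, exists_eq_or_imp]

/-- a formula is a program with one inner node -/
theorem exists_program {V : ℕ} {P : (∀ i, D i) → Prop} (F : Fml ι D w q) (hF : F.Small V P)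
    (s : ℕ) (hs : F.size + 1 ≤ s) :
    ∃ B : Program ι D w q V P s, B.nodes = 1 ∧ ∀ x, B.eval x = F.accepts x := by
  refine ⟨⟨1, .node .sinks F 0 1, by simpa [BP.size] using hs, ⟨trivial, hF⟩, Fin.last 2⟩, rfl,
    fun x => ?_⟩
  unfold Program.eval
  have e : (Fin.last 2 : Fin (1 + 2)) = Fin.last (0 + 2) := rfl
  simp only [BP.val]
  rw [e, Fin.lastCases_last]
  cases F.accepts x <;> simp

end Pool.Agent.Y638.WF
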