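import Pool.Agent.Y638.WF.Lower
import Pool.Agent.Y638.WF.Max
import Pool.Agent.TH457.Ary.MinPlus

set_option autoImplicit false

/-! # Negative triangles and integral formulas -/

namespace Pool.Agent.Y638.WF.MinPlus

open Finset Pool.Agent.TH697.Form Pool.Agent.TH697.Row Pool.Agent.TH697.Form.MinPlus
open Pool.Agent.TH457.Ary.MinPlus Pool.Agent.Y638.WF

variable {n b c w v : ℕ}

theorem asks (hb : 2 ^ b ≤ n) (i : Fin n) :
    Asks (Fin n × Fin n × Fin b) 0 (InRange n (n + 1)) (shortcut n) (some i) := by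
  classical
  refine asks_of (Set.range (fun v : Fin n × Fin n × Fin (2 ^ b) =>
    ((fun k => if k = v.1 then 1 else 2 ^ b + 1,
      fun j => if j = v.2.1 then v.2.2.val + 2 else 1) : (Fin n → ℕ) × (Fin n → ℕ))))
    (fun t : Fin n × Fin n × Fin b => b - t.2.2.val) (fun t z => ask t z) enc ?_ ?_ ?_ ?_
  · intro t z
    exact ⟨(t.1, t.2.1, ⟨thr (fun s => z (t.1, t.2.1, s)) t.2.2, thr_lt _ _⟩), rfl⟩
  · intro t z z' hz
    simp only [ask]
    rw [thr_causal (fun s => z (t.1, t.2.1, s)) (fun s => z' (t.1, t.2.1, s)) t.2.2]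
    intro s' hs'
    apply hz
    rw [Fin.lt_def] at hs'
    have := s'.2
    simp only
    omega
  · rintro _ ⟨v, rfl⟩ z
    refine ⟨fun k j => ?_, fun i' k => ?_⟩
    · rw [Function.update_of_ne (by simp)]
      have := num_lt (fun s => z (k, j, s))
      simp only [enc]
      omega
    · by_cases hi : i' = i
      · subst hi
        rw [Function.update_self]
        have := v.2.2.2
        simp only
        refine ⟨?_, ?_⟩ <;> split_ifs <;> omega
      · rw [Function.update_of_ne (by simpa using hi)]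
        simp [enc]
  · simp only [shortcut_enc, ne_eq, not_true_eq_false, filter_false, card_empty]
    simp

/-- the arithmetic -/
theorem arith {n b c w v l L g s : ℝ} (hn : 16 ≤ n) (hb : 4 ≤ b) (hc : 1 ≤ c) (hw : 1 ≤ w)
    (hv : 1 ≤ v) (hl : l ≤ 5 / 4 * b) (hL : L ≤ v * l + 2) (hg : g ≤ 15 / 4 * b) (hs : 0 ≤ s)
    (h : n * ((49 / 600 - 0) * (n ^ 2 * b) - g) ≤
      w * (1 + 12 * L + 4 * g + 2 * (w - 1) * (c * l)) * s) :
    n ^ 3 ≤ 1000 * w * (v + c * w) * s := by
  have h0 : 256 ≤ n ^ 2 := by nlinarith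
  have h00 : 256 * b ≤ n ^ 2 * b := mul_le_mul_of_nonneg_right h0 (by linarith)
  have h1 : n ^ 2 * b / 16 ≤ (49 / 600 - 0) * (n ^ 2 * b) - g := by linarith
  have h2 : n * (n ^ 2 * b / 16) ≤ n * ((49 / 600 - 0) * (n ^ 2 * b) - g) :=
    mul_le_mul_of_nonneg_left h1 (by linarith)
  have hbv : b ≤ v * b := by nlinarith
  have h3 : w * (1 + 12 * L + 4 * g + 2 * (w - 1) * (c * l)) ≤ 62 * b * (w * (v + c * w)) := by
    have h4 : 2 * (w - 1) * (c * l) ≤ 2 * (w - 1) * (5 / 4 * c * b) := by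
      apply mul_le_mul_of_nonneg_left _ (by linarith)
      nlinarith
    have h5 : v * l ≤ 5 / 4 * (v * b) := by nlinarith
    have h7 : 0 ≤ (w - 1) * (c * b) := by
      apply mul_nonneg (by linarith)
      positivity
    have h8 : b ≤ c * b := by nlinarith
    have h9 : 1 + 12 * L + 4 * g + 2 * (w - 1) * (c * l) ≤ 62 * b * (v + c * w) := by
      have e1 : 62 * b * (v + c * w) = 62 * (v * b) + 62 * (c * b) + 62 * ((w - 1) * (c * b)) := by
        ring
      rw [e1]
      linarith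
    calc w * (1 + 12 * L + 4 * g + 2 * (w - 1) * (c * l)) ≤ w * (62 * b * (v + c * w)) :=
          mul_le_mul_of_nonneg_left h9 (by linarith)
      _ = _ := by ring
  have h4 := mul_le_mul_of_nonneg_right h3 hs
  have h5 : b * n ^ 3 ≤ b * (1000 * w * (v + c * w) * s) := by
    have e1 : n * (n ^ 2 * b / 16) = b * n ^ 3 / 16 := by ring
    have e2 : 62 * b * (w * (v + c * w)) * s = b * (992 * w * (v + c * w) * s) / 16 := by ring
    have e3 : 0 ≤ b * (w * (v + c * w) * s) := by positivity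
    rw [e1] at h2
    rw [e2] at h4
    nlinarith
  exact le_of_mul_le_mul_left h5 (by linarith)

/-- logarithms of small numbers -/
theorem logb_small (hn : 1 ≤ n) : Real.logb 2 (2 * (n ^ v : ℕ) + 1) ≤ v * Real.logb 2 n + 2 := by
  have h1 : (1 : ℝ) ≤ (n : ℝ) ^ v := by
    exact_mod_cast Nat.one_le_pow v n (by omega)
  have h2 : (2 * ((n ^ v : ℕ) : ℝ) + 1) ≤ (n : ℝ) ^ v * 2 ^ 2 := by
    push_cast
    linarith
  refine (Real.logb_le_logb_of_le (by norm_num : (1 : ℝ) < 2) (by positivity) h2).trans ?_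
  rw [Real.logb_mul (by positivity) (by positivity), Real.logb_pow, Real.logb_pow,
    Real.logb_self_eq_one (by norm_num)]
  norm_num

theorem bound (hn : 16 ≤ n) (hc : 1 ≤ c) (hw : 1 ≤ w) (hv : 1 ≤ v) {Ω : Type} [Fintype Ω]
    (μ : Ω → ℝ) (hμ : IsProb μ) (s : ℕ)
    (F : Ω → Program (Option (Fin n)) (Item n) w (n ^ c) (n ^ v) (InRange n (n + 1)) s)
    (hF : ApproximatesOn μ (fun ω => (F ω).eval) (InRange n (n + 1)) (shortcut n)) :
    (n : ℝ) ^ 3 ≤ 1000 * w * (v + c * w) * s := by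
  classical
  have hw' : (1 : ℝ) ≤ w := by exact_mod_cast hw
  have hc' : (1 : ℝ) ≤ c := by exact_mod_cast hc
  have hv' : (1 : ℝ) ≤ v := by exact_mod_cast hv
  have hs0 : (0 : ℝ) ≤ s := Nat.cast_nonneg s
  by_cases hsn : n ^ 3 ≤ s
  · have h1 : (n : ℝ) ^ 3 ≤ s := by exact_mod_cast hsn
    have h3 : (0 : ℝ) ≤ c * w := by positivity
    have h2 : (1 : ℝ) ≤ w * (v + c * w) := one_le_mul_of_one_le_of_one_le hw' (by linarith)
    nlinarith
  obtain ⟨b, hb4, hpow, hpow2⟩ := exists_b hn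
  have h := program_lower μ hμ (n ^ v) s (InRange n (n + 1)) F (shortcut n) hF
    (Nat.one_le_pow _ _ (by omega)) (Nat.one_le_pow _ _ (by omega)) hw 0
    ((univ : Finset (Fin n)).map Function.Embedding.some) (T := Fin n × Fin n × Fin b) (by
      intro a ha
      rw [mem_map] at ha
      obtain ⟨i, -, rfl⟩ := ha
      exact asks hpow i)
  rw [card_map, card_univ, Fintype.card_fin, card_T] at h
  have e1 : Real.logb 2 ((n ^ c : ℕ) : ℝ) = c * Real.logb 2 n := by
    push_cast
    rw [Real.logb_pow]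
  rw [e1] at h
  refine arith (l := Real.logb 2 n) (L := Real.logb 2 (2 * (n ^ v : ℕ) + 1))
    (g := Real.logb 2 (s + 2)) (by exact_mod_cast hn)
    (by exact_mod_cast hb4) hc' hw' hv' ?_ (logb_small (by omega))
    (logb_s hb4 (by omega) hpow2 (by omega)) hs0 h
  have h9 := logb_q (c := 1) (by omega) hb4 hpow2
  simpa using h9

/-- exhaustive search -/
theorem upper (n w q V : ℕ) (hV : 2 * n + 1 ≤ V) : ∃ F : Fml (Option (Fin n)) (Item n) w q,
    F.size = 2 * n ^ 3 ∧ F.Small V (InRange n (n + 1)) ∧ ∀ x, F.accepts x = shortcut n x := by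
  obtain ⟨F, h1, h2, h3⟩ := exists_max (w := w) (q := q) V (InRange n (n + 1)) univ
    (fun p : Fin n × Fin n × Fin n =>
    .add (.item (D := Item n) (some p.1) (fun d => (d.2 p.2.2 : ℤ) - d.1 p.2.1))
      (.item (D := Item n) none (fun B => -(B p.2.1 p.2.2 : ℤ))))
    (fun p => by
      refine ⟨fun x hx => ?_, fun x hx => ?_, fun x hx => ?_⟩ <;>
      · have h1 := hx.1 p.2.1 p.2.2
        have h2 := (hx.2 p.1 p.2.1).1
        have h3 := (hx.2 p.1 p.2.2).2
        simp only [Fml.eval]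
        rw [abs_le]
        constructor <;> omega)
  refine ⟨F, ?_, h2, fun x => ?_⟩
  · rw [h1]
    simp only [Fml.size, sum_const, card_univ, Fintype.card_prod, Fintype.card_fin, smul_eq_mul]
    ring
  · unfold Fml.accepts shortcut
    rw [Bool.eq_iff_iff, decide_eq_true_iff, decide_eq_true_iff, h3]
    simp only [Fml.eval, mem_univ, true_and]
    constructor
    · rintro ⟨p, h⟩
      exact ⟨p.1, p.2.1, p.2.2, by omega⟩
    · rintro ⟨i, k, j, h⟩
      exact ⟨(i, k, j), by simp only; omega⟩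

end Pool.Agent.Y638.WF.MinPlus
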