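import Pool.Agent.Y638.WF.Lower
import Pool.Agent.Y638.WF.Max
import Pool.Agent.Y638.WF.MinPlus
import Pool.Agent.TH697.Form.ET

set_option autoImplicit false

/-! # Exact triangles and integral formulas -/

namespace Pool.Agent.Y638.WF.ET

open Finset Pool.Agent.TH697.Form Pool.Agent.TH697.Row Pool.Agent.TH697.Form.ET
open Pool.Agent.Y638.WF

variable {n b c w v : ℕ}

theorem asks (hb : 2 ^ (b + 1) ≤ n) (i : Fin n) :
    Asks (Str n b) 0 (InRange n (n ^ 2)) (zeroTri n) (some i) := by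
  classical
  have he : Nonempty ((Fin (2 ^ b) ⊕ (Fin b → Bool)) ↪ Fin n) := by
    rw [Function.Embedding.nonempty_iff_card_le]
    simp only [Fintype.card_sum, Fintype.card_fin, Fintype.card_fun, Fintype.card_bool]
    rw [pow_succ] at hb
    omega
  obtain ⟨e⟩ := he
  have h0 : (0 : ℤ) ≤ (n : ℤ) ^ 2 := by positivity
  refine asks_of {d : (Fin n → ℤ) × (Fin n → ℤ) | ∀ k, |d.1 k| ≤ ((n ^ 2 : ℕ) : ℤ) ∧
      |d.2 k| ≤ ((n ^ 2 : ℕ) : ℤ)}
    (fun t : Str n b => t.2.1.val * b + t.2.2.val) (fun t z => ask e t z) (enc e) ?_ ?_ ?_ ?_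
  · intro t z k
    have h := (inRange_enc e i t z hb).2 i k
    rw [Function.update_self] at h
    exact h
  · exact fun t z z' h => ask_causal e t z z' h
  · intro a ha z
    refine ⟨fun k j => ?_, fun i' k => ?_⟩
    · rw [Function.update_of_ne (by simp)]
      push_cast
      rcases enc_cases e z k j with ⟨u, -, h⟩ | h
      · rw [h, abs_neg, abs_of_pos (by linarith [lab_pos k u])]
        exact (lab_le k u hb).le
      · rw [h, abs_of_nonneg h0]
    · by_cases hi : i' = i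
      · subst hi
        rw [Function.update_self]
        exact ha k
      · rw [Function.update_of_ne (by simpa using hi)]
        simp only [enc, abs_zero]
        push_cast
        exact ⟨h0, by rw [abs_of_nonneg h0]⟩
  · simp only [zeroTri_enc e i _ _ hb, ne_eq, not_true_eq_false, filter_false, card_empty]
    simp

/-- the arithmetic -/
theorem arith {n b c w v l L g N s : ℝ} (hn : 256 ≤ n) (hb : 7 ≤ b) (hc : 1 ≤ c) (hw : 1 ≤ w)
    (hv : 1 ≤ v) (hN : n ^ 2 * b / 4 ≤ N) (hl : l ≤ 9 / 7 * b) (hL : L ≤ v * l + 2)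
    (hg : g ≤ 27 / 7 * b) (hs : 0 ≤ s)
    (h : n * ((49 / 600 - 0) * N - g) ≤
      w * (1 + 12 * L + 4 * g + 2 * (w - 1) * (c * l)) * s) :
    n ^ 3 ≤ 2000 * w * (v + c * w) * s := by
  have h0 : 65536 ≤ n ^ 2 := by nlinarith
  have h00 : 65536 * b ≤ n ^ 2 * b := mul_le_mul_of_nonneg_right h0 (by linarith)
  have h1 : n ^ 2 * b / 50 ≤ (49 / 600 - 0) * N - g := by linarith
  have h2 : n * (n ^ 2 * b / 50) ≤ n * ((49 / 600 - 0) * N - g) :=
    mul_le_mul_of_nonneg_left h1 (by linarith)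
  have hbv : b ≤ v * b := by nlinarith
  have h3 : w * (1 + 12 * L + 4 * g + 2 * (w - 1) * (c * l)) ≤ 36 * b * (w * (v + c * w)) := by
    have h4 : 2 * (w - 1) * (c * l) ≤ 2 * (w - 1) * (9 / 7 * c * b) := by
      apply mul_le_mul_of_nonneg_left _ (by linarith)
      nlinarith
    have h5 : v * l ≤ 9 / 7 * (v * b) := by nlinarith
    have h7 : 0 ≤ (w - 1) * (c * b) := by
      apply mul_nonneg (by linarith)
      positivity
    have h8 : b ≤ c * b := by nlinarith
    have h9 : 1 + 12 * L + 4 * g + 2 * (w - 1) * (c * l) ≤ 36 * b * (v + c * w) := by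
      have e1 : 36 * b * (v + c * w) = 36 * (v * b) + 36 * (c * b) + 36 * ((w - 1) * (c * b)) := by
        ring
      rw [e1]
      linarith
    calc w * (1 + 12 * L + 4 * g + 2 * (w - 1) * (c * l)) ≤ w * (36 * b * (v + c * w)) :=
          mul_le_mul_of_nonneg_left h9 (by linarith)
      _ = _ := by ring
  have h4 := mul_le_mul_of_nonneg_right h3 hs
  have h5 : b * n ^ 3 ≤ b * (2000 * w * (v + c * w) * s) := by
    have e1 : n * (n ^ 2 * b / 50) = b * n ^ 3 / 50 := by ring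
    have e2 : 36 * b * (w * (v + c * w)) * s = b * (1800 * w * (v + c * w) * s) / 50 := by ring
    have e3 : 0 ≤ b * (w * (v + c * w) * s) := by positivity
    rw [e1] at h2
    rw [e2] at h4
    nlinarith
  exact le_of_mul_le_mul_left h5 (by linarith)

theorem logb_two_pow' (d : ℕ) : Real.logb 2 ((2 : ℝ) ^ d) = d := by
  rw [← Real.rpow_natCast, Real.logb_rpow (by norm_num) (by norm_num)]

theorem bound (hn : 256 ≤ n) (hc : 1 ≤ c) (hw : 1 ≤ w) (hv : 1 ≤ v) {Ω : Type} [Fintype Ω]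
    (μ : Ω → ℝ) (hμ : IsProb μ) (s : ℕ)
    (F : Ω → Program (Option (Fin n)) (Item n) w (n ^ c) (n ^ v) (InRange n (n ^ 2)) s)
    (hF : ApproximatesOn μ (fun ω => (F ω).eval) (InRange n (n ^ 2)) (zeroTri n)) :
    (n : ℝ) ^ 3 ≤ 2000 * w * (v + c * w) * s := by
  classical
  have hw' : (1 : ℝ) ≤ w := by exact_mod_cast hw
  have hc' : (1 : ℝ) ≤ c := by exact_mod_cast hc
  have hv' : (1 : ℝ) ≤ v := by exact_mod_cast hv
  have hs0 : (0 : ℝ) ≤ s := Nat.cast_nonneg s
  by_cases hsn : n ^ 3 ≤ s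
  · have h1 : (n : ℝ) ^ 3 ≤ s := by exact_mod_cast hsn
    have h3 : (0 : ℝ) ≤ c * w := by positivity
    have h2 : (1 : ℝ) ≤ w * (v + c * w) := one_le_mul_of_one_le_of_one_le hw' (by linarith)
    nlinarith
  obtain ⟨b, hb⟩ : ∃ b, Nat.log 2 n = b + 1 := by
    refine ⟨Nat.log 2 n - 1, ?_⟩
    have : 8 ≤ Nat.log 2 n := by
      have := Nat.log_mono_right (b := 2) hn
      rwa [show Nat.log 2 256 = 8 by decide +kernel] at this
    omega
  have hb7 : 7 ≤ b := by
    have := Nat.log_mono_right (b := 2) hn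
    rw [show Nat.log 2 256 = 8 by decide +kernel] at this
    omega
  have hpow : 2 ^ (b + 1) ≤ n := by
    rw [← hb]
    exact Nat.pow_log_le_self 2 (by omega)
  have hpow2 : n < 2 ^ (b + 2) := by
    have := Nat.lt_pow_succ_log_self (b := 2) (by norm_num) n
    rw [hb] at this
    exact this
  have h := program_lower μ hμ (n ^ v) s (InRange n (n ^ 2)) F (zeroTri n) hF
    (Nat.one_le_pow _ _ (by omega)) (Nat.one_le_pow _ _ (by omega)) hw 0
    ((univ : Finset (Fin n)).map Function.Embedding.some) (T := Str n b) (by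
      intro a ha
      rw [mem_map] at ha
      obtain ⟨i, -, rfl⟩ := ha
      exact asks hpow i)
  rw [card_map, card_univ, Fintype.card_fin] at h
  have e1 : Real.logb 2 ((n ^ c : ℕ) : ℝ) = c * Real.logb 2 n := by
    push_cast
    rw [Real.logb_pow]
  rw [e1] at h
  refine arith (l := Real.logb 2 n) (L := Real.logb 2 (2 * (n ^ v : ℕ) + 1)) (b := b)
    (g := Real.logb 2 (s + 2)) (N := ((Fintype.card (Str n b) : ℕ) : ℝ)) (by exact_mod_cast hn)
    (by exact_mod_cast hb7) hc' hw' hv' ?_ ?_ (MinPlus.logb_small (by omega)) ?_ hs0 h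
  · have e1 : ((Fintype.card (Str n b) : ℕ) : ℝ) = (n : ℝ) * 2 ^ b * b := by
      simp [Str]; ring
    rw [e1]
    have e2 : (n : ℝ) / 4 ≤ 2 ^ b := by
      have h3 : (n : ℝ) < 2 ^ (b + 2) := by exact_mod_cast hpow2
      have h4 : (2 : ℝ) ^ (b + 2) = 4 * 2 ^ b := by rw [pow_add]; ring
      linarith
    have e3 : (n : ℝ) ^ 2 * b / 4 = n * (n / 4) * b := by ring
    rw [e3]
    gcongr
  · have h1 : (n : ℝ) ≤ (2 : ℝ) ^ (b + 2) := by exact_mod_cast hpow2.le
    have h2 := Real.logb_le_logb_of_le (by norm_num : (1 : ℝ) < 2)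
      (by exact_mod_cast (by omega : 0 < n)) h1
    rw [logb_two_pow'] at h2
    push_cast at h2
    have hb' : (7 : ℝ) ≤ b := by exact_mod_cast hb7
    linarith
  · have h1 : ((s : ℝ) + 2) ≤ (2 : ℝ) ^ (3 * (b + 2)) := by
      have h2 : (n + 1) ^ 3 ≤ (2 ^ (b + 2)) ^ 3 := Nat.pow_le_pow_left (by omega) 3
      have h3 : s + 2 ≤ 2 ^ (3 * (b + 2)) := by
        have h4 : (2 ^ (b + 2)) ^ 3 = 2 ^ (3 * (b + 2)) := by rw [← pow_mul, mul_comm]
        have h5 : (n + 1) ^ 3 = n ^ 3 + 3 * n ^ 2 + 3 * n + 1 := by ring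
        have h6 : 0 < n ^ 2 := by positivity
        omega
      exact_mod_cast h3
    have h4 := Real.logb_le_logb_of_le (by norm_num : (1 : ℝ) < 2) (by positivity) h1
    rw [logb_two_pow'] at h4
    push_cast at h4
    have hb' : (7 : ℝ) ≤ b := by exact_mod_cast hb7
    linarith

/-- exhaustive search -/
theorem upper (n w q V : ℕ) (hV : 3 * n ^ 2 + 1 ≤ V) : ∃ F : Fml (Option (Fin n)) (Item n) w q,
    F.size = 4 * n ^ 3 ∧ F.Small V (InRange n (n ^ 2)) ∧ ∀ x, F.accepts x = zeroTri n x := by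
  obtain ⟨F, h1, h2, h3⟩ := exists_max (w := w) (q := q) V (InRange n (n ^ 2)) univ
    (fun p : Fin n × Fin n × Fin n =>
    .min (.add (.item (D := Item n) (some p.1) (fun d => d.1 p.2.1 + d.2 p.2.2 + 1))
        (.item (D := Item n) none (fun B => B p.2.1 p.2.2)))
      (.add (.item (D := Item n) (some p.1) (fun d => 1 - d.1 p.2.1 - d.2 p.2.2))
        (.item (D := Item n) none (fun B => -B p.2.1 p.2.2))))
    (fun p => by
      obtain ⟨m, hm⟩ : ∃ m : ℕ, m = n ^ 2 := ⟨_, rfl⟩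
      rw [← hm] at hV ⊢
      refine ⟨⟨fun x hx => ?_, fun x hx => ?_, fun x hx => ?_⟩,
        ⟨fun x hx => ?_, fun x hx => ?_, fun x hx => ?_⟩⟩ <;>
      · have h1 := abs_le.1 (hx.1 p.2.1 p.2.2)
        have h2 := abs_le.1 (hx.2 p.1 p.2.1).1
        have h3 := abs_le.1 (hx.2 p.1 p.2.2).2
        simp only [Fml.eval]
        rw [abs_le]
        constructor <;> omega)
  refine ⟨F, ?_, h2, fun x => ?_⟩
  · rw [h1]
    simp only [Fml.size, sum_const, card_univ, Fintype.card_prod, Fintype.card_fin, smul_eq_mul]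
    ring
  · unfold Fml.accepts zeroTri
    rw [Bool.eq_iff_iff, decide_eq_true_iff, decide_eq_true_iff, h3]
    simp only [Fml.eval, mem_univ, true_and, lt_min_iff]
    constructor
    · rintro ⟨p, h, h'⟩
      exact ⟨p.1, p.2.1, p.2.2, by omega⟩
    · rintro ⟨i, k, j, h⟩
      exact ⟨(i, k, j), by simp only; omega, by simp only; omega⟩

end Pool.Agent.Y638.WF.ET
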