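import Mathlib

set_option autoImplicit false

/-! # Clamped affine functions on an interval of integers -/

namespace Pool.Agent.Y638.WF

open Finset

/-- the clamped affine function -/
def cl (p : ℤ × ℤ × ℤ × ℤ) (x : ℤ) : ℤ := max p.1 (min p.2.1 (p.2.2.1 * x + p.2.2.2))

/-- clamped affine functions with values in `[-V, V]` -/
def Un (V : ℤ) (u : ℤ → ℤ) : Prop :=
  ∃ p : ℤ × ℤ × ℤ × ℤ, -V ≤ p.1 ∧ p.1 ≤ p.2.1 ∧ p.2.1 ≤ V ∧ u = cl p

theorem Un.clampId {V : ℤ} (hV : 0 ≤ V) : Un V (cl (-V, V, 1, 0)) :=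
  ⟨(-V, V, 1, 0), le_rfl, by simp only; linarith, le_rfl, rfl⟩

theorem clampId_eq {V x : ℤ} (h : |x| ≤ V) : cl (-V, V, 1, 0) x = x := by
  have := abs_le.1 h
  unfold cl
  simp only [one_mul, add_zero]
  rw [min_eq_right this.2, max_eq_right this.1]

theorem Un.comp_add {V : ℤ} {u : ℤ → ℤ} (h : Un V u) (c : ℤ) : Un V (fun x => u (x + c)) := by
  obtain ⟨⟨lo, hi, a, b⟩, h1, h2, h3, rfl⟩ := h
  refine ⟨(lo, hi, a, a * c + b), h1, h2, h3, ?_⟩
  funext x
  simp only [cl]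
  have : a * (x + c) + b = a * x + (a * c + b) := by ring
  rw [this]

theorem Un.comp_mul {V : ℤ} {u : ℤ → ℤ} (h : Un V u) (c : ℤ) : Un V (fun x => u (x * c)) := by
  obtain ⟨⟨lo, hi, a, b⟩, h1, h2, h3, rfl⟩ := h
  refine ⟨(lo, hi, a * c, b), h1, h2, h3, ?_⟩
  funext x
  simp only [cl]
  have : a * (x * c) + b = a * c * x + b := by ring
  rw [this]

theorem Un.comp_neg {V : ℤ} {u : ℤ → ℤ} (h : Un V u) : Un V (fun x => u (-x)) := by
  have := h.comp_mul (-1)
  simpa using this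

theorem Un.comp_max {V : ℤ} {u : ℤ → ℤ} (h : Un V u) (c : ℤ) : Un V (fun x => u (max x c)) := by
  obtain ⟨⟨lo, hi, a, b⟩, h1, h2, h3, rfl⟩ := h
  simp only at h1 h2 h3
  rcases le_total 0 a with ha | ha
  · refine ⟨(max lo (min hi (a * c + b)), hi, a, b), ?_, ?_, h3, ?_⟩
    · exact h1.trans (le_max_left _ _)
    · exact max_le h2 (min_le_left _ _)
    · funext x
      simp only [cl]
      rcases le_total x c with hx | hx
      · rw [max_eq_right hx]
        have : a * x ≤ a * c := mul_le_mul_of_nonneg_left hx ha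
        omega
      · rw [max_eq_left hx]
        have : a * c ≤ a * x := mul_le_mul_of_nonneg_left hx ha
        omega
  · refine ⟨(lo, max lo (min hi (a * c + b)), a, b), h1, ?_, ?_, ?_⟩
    · exact le_max_left _ _
    · exact max_le (h2.trans h3) ((min_le_left _ _).trans h3)
    · funext x
      simp only [cl]
      rcases le_total x c with hx | hx
      · rw [max_eq_right hx]
        have : a * c ≤ a * x := mul_le_mul_of_nonpos_left hx ha
        omega
      · rw [max_eq_left hx]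
        have : a * x ≤ a * c := mul_le_mul_of_nonpos_left hx ha
        omega

theorem Un.comp_min {V : ℤ} {u : ℤ → ℤ} (h : Un V u) (c : ℤ) : Un V (fun x => u (min x c)) := by
  have h1 := (h.comp_neg.comp_max (-c)).comp_neg
  have e : (fun x => u (min x c)) = fun x => u (-(max (-x) (-c))) := by
    funext x
    congr 1
    omega
  rw [e]
  exact h1

theorem Un.bool {V : ℤ} {u : ℤ → ℤ} (h : Un V u) (φ : Bool → ℤ) :
    Un V (fun x => u (φ (decide (0 < x)))) := by
  obtain ⟨⟨lo, hi, a, b⟩, h1, h2, h3, rfl⟩ := h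
  simp only at h1 h2 h3
  obtain ⟨s, hs⟩ : ∃ s, s = cl (lo, hi, a, b) (φ true) := ⟨_, rfl⟩
  obtain ⟨t, ht⟩ : ∃ t, t = cl (lo, hi, a, b) (φ false) := ⟨_, rfl⟩
  have hs' : -V ≤ s ∧ s ≤ V := by
    rw [hs]
    simp only [cl]
    constructor <;> omega
  have ht' : -V ≤ t ∧ t ≤ V := by
    rw [ht]
    simp only [cl]
    constructor <;> omega
  rcases le_total t s with hst | hst
  · refine ⟨(t, s, s - t, t), ht'.1, hst, hs'.2, ?_⟩
    funext x
    by_cases hx : 0 < x
    · rw [decide_eq_true hx, ← hs]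
      simp only [cl]
      have : s - t ≤ (s - t) * x := le_mul_of_one_le_right (by omega) (by omega)
      omega
    · rw [decide_eq_false hx, ← ht]
      simp only [cl]
      have : (s - t) * x ≤ 0 := mul_nonpos_of_nonneg_of_nonpos (by omega) (by omega)
      omega
  · refine ⟨(s, t, s - t, t), hs'.1, hst, ht'.2, ?_⟩
    funext x
    by_cases hx : 0 < x
    · rw [decide_eq_true hx, ← hs]
      simp only [cl]
      have : (s - t) * x ≤ (s - t) * 1 := mul_le_mul_of_nonpos_left (by omega) (by omega)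
      omega
    · rw [decide_eq_false hx, ← ht]
      simp only [cl]
      have : 0 ≤ (s - t) * x := mul_nonneg_of_nonpos_of_nonpos (by omega) (by omega)
      omega

/-- the parameters which are enough -/
noncomputable def params (V : ℕ) : Finset (ℤ × ℤ × ℤ × ℤ) :=
  Icc (-V : ℤ) V ×ˢ Icc (-V : ℤ) V ×ˢ Icc (-(2 * V) : ℤ) (2 * V) ×ˢ
    Icc (-(V + 2 * V * V) : ℤ) (V + 2 * V * V)

theorem card_params (V : ℕ) (hV : 1 ≤ V) : (params V).card ≤ (2 * V + 1) ^ 6 := by
  unfold params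
  rw [card_product, card_product, card_product, Int.card_Icc, Int.card_Icc, Int.card_Icc]
  have e1 : ((V : ℤ) + 1 - -V).toNat = 2 * V + 1 := by omega
  have e2 : ((2 * V : ℤ) + 1 - -(2 * V)).toNat = 4 * V + 1 := by omega
  have e3 : ((V + 2 * V * V : ℤ) + 1 - -(V + 2 * V * V)).toNat = 2 * (V + 2 * V * V) + 1 := by
    have : ((2 * (V + 2 * V * V) + 1 : ℕ) : ℤ) = (V + 2 * V * V : ℤ) + 1 - -(V + 2 * V * V) := by
      push_cast
      ring
    rw [← this, Int.toNat_natCast]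
  rw [e1, e2, e3]
  have h1 : 4 * V + 1 ≤ (2 * V + 1) ^ 2 := by nlinarith
  have h2 : 2 * (V + 2 * V * V) + 1 ≤ (2 * V + 1) ^ 2 := by nlinarith
  calc (2 * V + 1) * ((2 * V + 1) * ((4 * V + 1) * (2 * (V + 2 * V * V) + 1)))
      ≤ (2 * V + 1) * ((2 * V + 1) * ((2 * V + 1) ^ 2 * (2 * V + 1) ^ 2)) :=
        Nat.mul_le_mul_left _ (Nat.mul_le_mul_left _ (Nat.mul_le_mul h1 h2))
    _ = (2 * V + 1) ^ 6 := by ring

/-- steep functions -/
theorem steep (V lo hi a b : ℤ) (hV : 0 ≤ V) (h1 : -V ≤ lo) (h2 : lo ≤ hi) (h3 : hi ≤ V)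
    (ha : 2 * V < a) :
    ∃ b', -(V + 2 * V * V) ≤ b' ∧ b' ≤ V + 2 * V * V ∧
      ∀ x, -V ≤ x → x ≤ V → cl (lo, hi, a, b) x = cl (lo, hi, 2 * V, b') x := by
  classical
  by_cases h : ∃ y, (-V ≤ y ∧ y ≤ V) ∧ lo < a * y + b
  · -- the smallest such number
    obtain ⟨y, ⟨hy1, hy2⟩, hy3, hy4⟩ : ∃ y, (-V ≤ y ∧ y ≤ V) ∧ lo < a * y + b ∧
        ∀ x, -V ≤ x → x < y → a * x + b ≤ lo := by
      have hs : ((Icc (-V) V).filter (fun y => lo < a * y + b)).Nonempty := by
        obtain ⟨y, hy, hy'⟩ := h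
        exact ⟨y, mem_filter.2 ⟨mem_Icc.2 hy, hy'⟩⟩
      have hm := min'_mem _ hs
      rw [mem_filter, mem_Icc] at hm
      refine ⟨_, hm.1, hm.2, fun x hx1 hx2 => ?_⟩
      by_contra hc
      push Not at hc
      have := min'_le ((Icc (-V) V).filter (fun y => lo < a * y + b)) x
        (mem_filter.2 ⟨mem_Icc.2 ⟨hx1, hx2.le.trans hm.1.2⟩, hc⟩)
      omega
    obtain ⟨m, hm⟩ : ∃ m, m = min hi (a * y + b) := ⟨_, rfl⟩
    have hm1 : lo ≤ m ∧ m ≤ hi := by omega
    have hVy : -(2 * V * V) ≤ 2 * V * y ∧ 2 * V * y ≤ 2 * V * V := by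
      constructor
      · nlinarith
      · nlinarith
    refine ⟨m - 2 * V * y, by omega, by omega, fun x hx1 hx2 => ?_⟩
    simp only [cl]
    rcases lt_trichotomy x y with hxy | hxy | hxy
    · have e1 := hy4 x hx1 hxy
      have e2 : 2 * V * x ≤ 2 * V * y - 2 * V := by nlinarith
      omega
    · subst hxy
      omega
    · have e1 : a * y + a ≤ a * x := by nlinarith
      have e2 : 2 * V * y + 2 * V ≤ 2 * V * x := by nlinarith
      by_cases hlm : lo < m
      · omega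
      · omega
  · push Not at h
    refine ⟨-(V + 2 * V * V), le_rfl, by nlinarith, fun x hx1 hx2 => ?_⟩
    have e1 := h x ⟨hx1, hx2⟩
    have e2 : 2 * V * x ≤ 2 * V * V := by nlinarith
    simp only [cl]
    omega

/-- finitely many functions are enough -/
theorem Un.exists_params {V : ℕ} {u : ℤ → ℤ} (h : Un V u) :
    ∃ p ∈ params V, ∀ x : ℤ, |x| ≤ V → u x = cl p x := by
  obtain ⟨⟨lo, hi, a, b⟩, h1, h2, h3, rfl⟩ := h
  simp only at h1 h2 h3
  have hV : (0 : ℤ) ≤ V := Nat.cast_nonneg V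
  have mem : ∀ a' b' : ℤ, -(2 * V) ≤ a' → a' ≤ 2 * V → -(V + 2 * V * V : ℤ) ≤ b' →
      b' ≤ V + 2 * V * V → (lo, hi, a', b') ∈ params V := by
    intro a' b' e1 e2 e3 e4
    unfold params
    simp only [mem_product, mem_Icc]
    exact ⟨⟨h1, h2.trans h3⟩, ⟨h1.trans h2, h3⟩, ⟨e1, e2⟩, ⟨e3, e4⟩⟩
  rcases lt_or_ge (2 * (V : ℤ)) a with ha | ha
  · obtain ⟨b', e1, e2, e3⟩ := steep V lo hi a b hV h1 h2 h3 ha
    refine ⟨(lo, hi, 2 * V, b'), mem _ _ (by omega) le_rfl e1 e2, fun x hx => ?_⟩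
    have := abs_le.1 hx
    exact e3 x this.1 this.2
  rcases lt_or_ge a (-(2 * (V : ℤ))) with ha' | ha'
  · obtain ⟨b', e1, e2, e3⟩ := steep V lo hi (-a) b hV h1 h2 h3 (by omega)
    refine ⟨(lo, hi, -(2 * V), b'), mem _ _ le_rfl (by omega) e1 e2, fun x hx => ?_⟩
    have := abs_le.1 hx
    have e4 := e3 (-x) (by omega) (by omega)
    simp only [cl] at e4 ⊢
    have e5 : -a * -x + b = a * x + b := by ring
    have e6 : 2 * (V : ℤ) * -x + b' = -(2 * V) * x + b' := by ring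
    rw [e5, e6] at e4
    exact e4
  · refine ⟨(lo, hi, a, max (-(V + 2 * V * V)) (min (V + 2 * V * V) b)),
      mem _ _ ha' ha (by omega) (by
        have : (0 : ℤ) ≤ V + 2 * V * V := by positivity
        omega), fun x hx => ?_⟩
    have hx' := abs_le.1 hx
    have e1 : |a * x| ≤ 2 * V * V := by
      rw [abs_mul]
      exact mul_le_mul (abs_le.2 ⟨ha', ha⟩) hx (abs_nonneg _) (by positivity)
    have e2 := abs_le.1 e1
    simp only [cl]
    omega

end Pool.Agent.Y638.WF
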