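import Pool.Agent.Y638.WF.Defs
import Pool.Agent.Y638.WF.Unary

set_option autoImplicit false

/-! # Few subfunctions of integral formulas -/

namespace Pool.Agent.Y638.WF

open Finset

variable {ι : Type} {D : ι → Type} [DecidableEq ι] {w q : ℕ}

namespace Word

/-- the leaf sees item `i` -/
def Sees (i : ι) (τ : Word ι D w q) : Prop := ∃ k, τ.item k = i

instance (i : ι) (τ : Word ι D w q) : Decidable (τ.Sees i) := by
  unfold Sees; infer_instance

theorem update_of_not (i : ι) (τ : Word ι D w q) (h : ¬ τ.Sees i) (z : ∀ i, D i) (d : D i) :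
    (fun k => τ.view k (Function.update z i d (τ.item k))) = fun k => τ.view k (z (τ.item k)) := by
  funext k
  have hk : τ.item k ≠ i := fun hk => h ⟨k, hk⟩
  rw [Function.update_of_ne hk]

open Classical in
/-- the functions which arise from a leaf -/
theorem family {Y : Type} (i : ι) (y : Y → D i) (τ : Word ι D w q) (h : τ.Sees i) :
    ∃ S : Finset (Y → ℤ), S.card ≤ q ^ (w - 1) ∧
      ∀ z : (∀ i, D i), (fun v => τ.out (fun k => τ.view k
        (Function.update z i (y v) (τ.item k)))) ∈ S := by
  obtain ⟨k0, hk0⟩ := h
  refine ⟨(univ : Finset ({k : Fin w // k ≠ k0} → Fin q)).image (fun c => fun v =>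
    τ.out (fun k => if hk : τ.item k = i then τ.view k (hk ▸ y v) else
      if h : k ≠ k0 then c ⟨k, h⟩ else τ.view k (by
        have h1 : k = k0 := not_not.1 h
        rw [h1] at hk
        exact absurd hk0 hk))), ?_, fun z => ?_⟩
  · refine card_image_le.trans (le_of_eq ?_)
    rw [card_univ, Fintype.card_fun, Fintype.card_fin]
    congr 1
    rw [Fintype.card_subtype_compl]
    simp
  · rw [mem_image]
    refine ⟨fun k => τ.view k.1 (z (τ.item k.1)), mem_univ _, ?_⟩
    funext v
    simp only
    congr 1
    funext k
    by_cases hk : τ.item k = i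
    · rw [dif_pos hk]
      congr 1
      subst hk
      rw [Function.update_self]
    · have hk1 : k ≠ k0 := by rintro rfl; exact hk hk0
      rw [dif_neg hk, dif_pos hk1, Function.update_of_ne hk]

theorem card_sees (I : Finset ι) (τ : Word ι D w q) :
    (I.filter (fun i => τ.Sees i)).card ≤ w := by
  have h : I.filter (fun i => τ.Sees i) ⊆ (univ : Finset (Fin w)).image (fun k => τ.item k) := by
    intro b hb
    rw [mem_filter] at hb
    obtain ⟨k, hk⟩ := hb.2
    exact mem_image.2 ⟨k, mem_univ _, hk⟩
  exact (card_le_card h).trans (card_image_le.trans (by simp))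

end Word

namespace Fml

/-- The number of leaves which see item `i`. -/
def reads (i : ι) : Fml ι D w q → ℕ
  | const _ => 0
  | item j _ => if j = i then 1 else 0
  | word τ => if τ.Sees i then 1 else 0
  | add F G => F.reads i + G.reads i
  | mul F G => F.reads i + G.reads i
  | max F G => F.reads i + G.reads i
  | min F G => F.reads i + G.reads i
  | pos F => F.reads i
  | sym _ _ F => ∑ j, (F j).reads i

theorem eval_update (i : ι) (F : Fml ι D w q) (h : F.reads i = 0) (z : ∀ i, D i) (d : D i) :
    F.eval (Function.update z i d) = F.eval z := by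
  induction F with
  | const c => rfl
  | item j f =>
    have hj : j ≠ i := by
      intro hj
      simp [reads, hj] at h
    simp only [eval]
    rw [Function.update_of_ne hj]
  | word τ =>
    have hτ : ¬ τ.Sees i := by
      intro hτ
      simp [reads, hτ] at h
    simp only [eval]
    rw [τ.update_of_not i hτ]
  | add F G ihF ihG =>
    simp only [reads] at h
    simp only [eval]
    rw [ihF (by omega), ihG (by omega)]
  | mul F G ihF ihG =>
    simp only [reads] at h
    simp only [eval]
    rw [ihF (by omega), ihG (by omega)]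
  | max F G ihF ihG =>
    simp only [reads] at h
    simp only [eval]
    rw [ihF (by omega), ihG (by omega)]
  | min F G ihF ihG =>
    simp only [reads] at h
    simp only [eval]
    rw [ihF (by omega), ihG (by omega)]
  | pos F ih =>
    simp only [reads] at h
    simp only [eval]
    rw [ih h]
  | sym k H F ih =>
    simp only [reads] at h
    simp only [eval]
    have h1 : ∀ j, (F j).eval (Function.update z i d) = (F j).eval z := fun j =>
      ih j (by
        have := (sum_eq_zero_iff (s := univ) (f := fun j => (F j).reads i)).1 h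
        exact this j (mem_univ j))
    simp only [h1]

theorem sum_reads_le (I : Finset ι) (hw : 1 ≤ w) (F : Fml ι D w q) :
    ∑ i ∈ I, F.reads i ≤ w * F.size := by
  induction F with
  | const c => simp [reads, size]
  | item j f =>
    simp only [reads, size]
    rw [Finset.sum_ite_eq]
    split_ifs <;> omega
  | word τ =>
    simp only [reads, size]
    rw [← card_filter, mul_one]
    exact τ.card_sees I
  | add F G ihF ihG =>
    simp only [reads, size, sum_add_distrib]
    rw [mul_add]
    omega
  | mul F G ihF ihG =>
    simp only [reads, size, sum_add_distrib]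
    rw [mul_add]
    omega
  | max F G ihF ihG =>
    simp only [reads, size, sum_add_distrib]
    rw [mul_add]
    omega
  | min F G ihF ihG =>
    simp only [reads, size, sum_add_distrib]
    rw [mul_add]
    omega
  | pos F ih => exact ih
  | sym k H F ih =>
    simp only [reads, size]
    rw [sum_comm, mul_add]
    calc ∑ j, ∑ i ∈ I, (F j).reads i ≤ ∑ j, w * (F j).size := sum_le_sum fun j _ => ih j
      _ = w * ∑ j, (F j).size := by rw [mul_sum]
      _ ≤ _ := by omega

theorem Small.bd {V : ℕ} {P : (∀ i, D i) → Prop} (hV : 1 ≤ V) (F : Fml ι D w q)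
    (h : F.Small V P) : Bd V P F := by
  induction F with
  | const c => exact h
  | item j f => exact h
  | word τ => exact h
  | add F G ihF ihG => exact h.2.2
  | mul F G ihF ihG => exact h.2.2
  | max F G ihF ihG =>
    intro x hx
    simp only [eval]
    have h1 := abs_le.1 (ihF h.1 x hx)
    have h2 := abs_le.1 (ihG h.2 x hx)
    rw [abs_le]
    constructor <;> omega
  | min F G ihF ihG =>
    intro x hx
    simp only [eval]
    have h1 := abs_le.1 (ihF h.1 x hx)
    have h2 := abs_le.1 (ihG h.2 x hx)
    rw [abs_le]
    constructor <;> omega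
  | pos F ih =>
    intro x hx
    simp only [eval]
    split_ifs <;> simp
    omega
  | sym k H F ih => exact h.2

/-- the family is rich enough -/
def Fam {Y : Type} (V : ℕ) (Z : Set (∀ i, D i)) (i : ι) (y : Y → D i) (F : Fml ι D w q)
    (S : Finset (Y → ℤ)) : Prop :=
  ∀ z ∈ Z, ∀ u, Un V u → (fun v => u (F.eval (Function.update z i (y v)))) ∈ S

theorem Fam.self {Y : Type} {V : ℕ} {Z : Set (∀ i, D i)} {i : ι} {y : Y → D i}
    {F : Fml ι D w q} {S : Finset (Y → ℤ)} (h : F.Fam V Z i y S)
    (hF : ∀ z ∈ Z, ∀ v, |F.eval (Function.update z i (y v))| ≤ V) (z : ∀ i, D i) (hz : z ∈ Z) :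
    (fun v => F.eval (Function.update z i (y v))) ∈ S := by
  have h1 := h z hz _ (Un.clampId (Nat.cast_nonneg V))
  have e : (fun v => cl (-(V : ℤ), V, 1, 0) (F.eval (Function.update z i (y v)))) =
      fun v => F.eval (Function.update z i (y v)) := by
    funext v
    exact clampId_eq (hF z hz v)
  rw [e] at h1
  exact h1

open Classical in
/-- composition of few functions with unary functions -/
theorem fam_of {Y : Type} {V : ℕ} {Z : Set (∀ i, D i)} {i : ι} {y : Y → D i}
    {F : Fml ι D w q} (hF : ∀ z ∈ Z, ∀ v, |F.eval (Function.update z i (y v))| ≤ V)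
    (hV : 1 ≤ V) (T : Finset (Y → ℤ))
    (hT : ∀ z ∈ Z, (fun v => F.eval (Function.update z i (y v))) ∈ T) :
    ∃ S : Finset (Y → ℤ), S.card ≤ (2 * V + 1) ^ 6 * T.card ∧ F.Fam V Z i y S := by
  refine ⟨(params V ×ˢ T).image (fun a => fun v => cl a.1 (a.2 v)), ?_, ?_⟩
  · refine card_image_le.trans ?_
    rw [card_product]
    exact Nat.mul_le_mul_right _ (card_params V hV)
  · intro z hz u hu
    obtain ⟨p, hp, hp'⟩ := hu.exists_params
    rw [mem_image]
    refine ⟨(p, fun v => F.eval (Function.update z i (y v))), mem_product.2 ⟨hp, hT z hz⟩, ?_⟩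
    funext v
    exact (hp' _ (hF z hz v)).symm

open Classical in
theorem fam {Y : Type} {V : ℕ} {P : (∀ i, D i) → Prop} (hV : 1 ≤ V) (Z : Set (∀ i, D i)) (i : ι)
    (y : Y → D i) (hZ : ∀ z ∈ Z, ∀ v, P (Function.update z i (y v))) (s B : ℕ) (hq : 1 ≤ q)
    (hB : B = (2 * V + 1) ^ 6 * (s + 1) * q ^ (w - 1)) (F : Fml ι D w q) (hs : F.size ≤ s)
    (hF : F.Small V P) (h : 1 ≤ F.reads i) :
    ∃ S : Finset (Y → ℤ), S.card ≤ B ^ (2 * F.reads i - 1) ∧ F.Fam V Z i y S := by
  have hq1 : 1 ≤ q ^ (w - 1) := Nat.one_le_pow _ _ hq
  have hB1 : (2 * V + 1) ^ 6 * (s + 1) ≤ B := by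
    rw [hB]
    exact Nat.le_mul_of_pos_right _ hq1
  have hK1 : 1 ≤ (2 * V + 1) ^ 6 := Nat.one_le_pow _ _ (by omega)
  have hB2 : (2 * V + 1) ^ 6 ≤ B := (Nat.le_mul_of_pos_right _ (by omega)).trans hB1
  have hB3 : (2 * V + 1) ^ 6 * q ^ (w - 1) ≤ B := by
    rw [hB]
    apply Nat.mul_le_mul_right
    exact Nat.le_mul_of_pos_right _ (by omega)
  have hB0 : 1 ≤ B := hK1.trans hB2
  have bd : ∀ G : Fml ι D w q, G.Small V P → ∀ z ∈ Z, ∀ v,
      |G.eval (Function.update z i (y v))| ≤ V :=
    fun G hG z hz v => Small.bd hV G hG _ (hZ z hz v)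
  -- binary gates
  have binary : ∀ (F G H : Fml ι D w q) (op : ℤ → ℤ → ℤ), H.Small V P →
      (∀ x, H.eval x = op (F.eval x) (G.eval x)) → H.reads i = F.reads i + G.reads i →
      F.Small V P → G.Small V P →
      (1 ≤ F.reads i → ∃ S : Finset (Y → ℤ), S.card ≤ B ^ (2 * F.reads i - 1) ∧ F.Fam V Z i y S) →
      (1 ≤ G.reads i → ∃ S : Finset (Y → ℤ), S.card ≤ B ^ (2 * G.reads i - 1) ∧ G.Fam V Z i y S) →
      (∀ c u, Un V u → Un V (fun t => u (op t c))) →
      (∀ c u, Un V u → Un V (fun t => u (op c t))) → 1 ≤ H.reads i →
      ∃ S : Finset (Y → ℤ), S.card ≤ B ^ (2 * H.reads i - 1) ∧ H.Fam V Z i y S := by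
    intro F G H op hH he hr hFs hGs ihF ihG h1 h2 hpos
    rw [hr] at hpos ⊢
    by_cases hF0 : F.reads i = 0
    · obtain ⟨S, hS1, hS2⟩ := ihG (by omega)
      rw [hF0, zero_add]
      refine ⟨S, hS1, fun z hz u hu => ?_⟩
      have := hS2 z hz _ (h2 (F.eval z) u hu)
      have e : (fun v => u (H.eval (Function.update z i (y v)))) =
          fun v => u (op (F.eval z) (G.eval (Function.update z i (y v)))) := by
        funext v
        rw [he, F.eval_update i hF0]
      rw [e]
      exact this
    by_cases hG0 : G.reads i = 0
    · obtain ⟨S, hS1, hS2⟩ := ihF (by omega)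
      rw [hG0, add_zero]
      refine ⟨S, hS1, fun z hz u hu => ?_⟩
      have := hS2 z hz _ (h1 (G.eval z) u hu)
      have e : (fun v => u (H.eval (Function.update z i (y v)))) =
          fun v => u (op (F.eval (Function.update z i (y v))) (G.eval z)) := by
        funext v
        rw [he, G.eval_update i hG0]
      rw [e]
      exact this
    obtain ⟨S1, hS1, hS1'⟩ := ihF (by omega)
    obtain ⟨S2, hS2, hS2'⟩ := ihG (by omega)
    obtain ⟨S, hS3, hS4⟩ := fam_of (bd H hH) hV
      ((S1 ×ˢ S2).image (fun a => fun v => op (a.1 v) (a.2 v))) (fun z hz => by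
        rw [mem_image]
        refine ⟨(fun v => F.eval (Function.update z i (y v)),
          fun v => G.eval (Function.update z i (y v))), mem_product.2
          ⟨hS1'.self (bd F hFs) z hz, hS2'.self (bd G hGs) z hz⟩, ?_⟩
        funext v
        rw [he])
    refine ⟨S, hS3.trans ?_, hS4⟩
    calc (2 * V + 1) ^ 6 * ((S1 ×ˢ S2).image (fun a => fun v => op (a.1 v) (a.2 v))).card
        ≤ B * (S1.card * S2.card) := by
          apply Nat.mul_le_mul hB2
          refine card_image_le.trans ?_
          rw [card_product]
      _ ≤ B * (B ^ (2 * F.reads i - 1) * B ^ (2 * G.reads i - 1)) :=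
          Nat.mul_le_mul_left _ (Nat.mul_le_mul hS1 hS2)
      _ = B ^ (2 * (F.reads i + G.reads i) - 1) := by
          rw [← pow_add, ← pow_succ']
          congr 1
          omega
  induction F with
  | const c => simp [reads] at h
  | item j f =>
    by_cases hj : j = i
    · subst hj
      obtain ⟨S, h1, h2⟩ := fam_of (bd (item j f) hF) hV {fun v => f (y v)} (fun z hz => by
        rw [mem_singleton]
        funext v
        simp [eval])
      refine ⟨S, h1.trans ?_, h2⟩
      simp only [reads, if_true, card_singleton, mul_one]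
      rw [show 2 - 1 = 1 by norm_num, pow_one]
      exact hB2
    · simp [reads, hj] at h
  | word τ =>
    by_cases hτ : τ.Sees i
    · obtain ⟨T, hT, hT'⟩ := τ.family i y hτ
      obtain ⟨S, h1, h2⟩ := fam_of (bd (word τ) hF) hV T (fun z hz => hT' z)
      refine ⟨S, h1.trans ?_, h2⟩
      simp only [reads, hτ, if_true]
      rw [show 2 * 1 - 1 = 1 by norm_num, pow_one]
      exact (Nat.mul_le_mul_left _ hT).trans hB3
    · simp [reads, hτ] at h
  | add F G ihF ihG =>
    simp only [size] at hs
    exact binary F G (add F G) (fun a b => a + b) hF (fun x => rfl) rfl hF.1 hF.2.1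
      (fun h => ihF (by omega) hF.1 h) (fun h => ihG (by omega) hF.2.1 h)
      (fun c u hu => hu.comp_add c)
      (fun c u hu => by
        have := hu.comp_add c
        simpa only [add_comm] using this) h
  | mul F G ihF ihG =>
    simp only [size] at hs
    exact binary F G (mul F G) (fun a b => a * b) hF (fun x => rfl) rfl hF.1 hF.2.1
      (fun h => ihF (by omega) hF.1 h) (fun h => ihG (by omega) hF.2.1 h)
      (fun c u hu => hu.comp_mul c)
      (fun c u hu => by
        have := hu.comp_mul c
        simpa only [mul_comm] using this) h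
  | max F G ihF ihG =>
    simp only [size] at hs
    exact binary F G (max F G) (fun a b => Max.max a b) hF (fun x => rfl) rfl hF.1 hF.2
      (fun h => ihF (by omega) hF.1 h) (fun h => ihG (by omega) hF.2 h)
      (fun c u hu => hu.comp_max c)
      (fun c u hu => by
        have := hu.comp_max c
        simpa only [max_comm] using this) h
  | min F G ihF ihG =>
    simp only [size] at hs
    exact binary F G (min F G) (fun a b => Min.min a b) hF (fun x => rfl) rfl hF.1 hF.2
      (fun h => ihF (by omega) hF.1 h) (fun h => ihG (by omega) hF.2 h)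
      (fun c u hu => hu.comp_min c)
      (fun c u hu => by
        have := hu.comp_min c
        simpa only [min_comm] using this) h
  | pos F ih =>
    simp only [size] at hs
    simp only [reads] at h ⊢
    obtain ⟨S, hS1, hS2⟩ := ih hs hF h
    refine ⟨S, hS1, fun z hz u hu => ?_⟩
    have := hS2 z hz _ (hu.bool (fun b => if b then 1 else 0))
    simpa only [eval, decide_eq_true_eq] using this
  | sym k H F ih =>
    simp only [size] at hs
    simp only [reads] at h ⊢
    have hsj : ∀ j, (F j).size ≤ ∑ j, (F j).size := fun j =>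
      single_le_sum (f := fun j => (F j).size) (fun _ _ => Nat.zero_le _) (mem_univ j)
    by_cases hA : ∃ j0, ∀ j, j ≠ j0 → (F j).reads i = 0
    · -- one live child
      obtain ⟨j0, hj0⟩ := hA
      have e : ∑ j, (F j).reads i = (F j0).reads i :=
        sum_eq_single j0 (fun j _ hj => hj0 j hj) (fun hj => absurd (mem_univ _) hj)
      rw [e] at h ⊢
      obtain ⟨S, hS1, hS2⟩ := ih j0 (by have := hsj j0; omega) (hF.1 j0) h
      refine ⟨S, hS1, fun z hz u hu => ?_⟩
      have h9 := hS2 z hz _ (hu.bool (fun b => H ((univ.filter (fun j => j ≠ j0 ∧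
        0 < (F j).eval z)).card + if b then 1 else 0)))
      have e3 : (fun v => u ((sym k H F).eval (Function.update z i (y v)))) =
          fun v => u (H ((univ.filter (fun j => j ≠ j0 ∧ 0 < (F j).eval z)).card +
            if 0 < (F j0).eval (Function.update z i (y v)) then 1 else 0)) := by
        funext v
        simp only [eval]
        congr 2
        have e2 : univ.filter (fun j => 0 < (F j).eval (Function.update z i (y v))) =
            univ.filter (fun j => j ≠ j0 ∧ 0 < (F j).eval z) ∪
            (if 0 < (F j0).eval (Function.update z i (y v)) then {j0} else ∅) := by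
          ext j
          rw [mem_filter, mem_union, mem_filter]
          by_cases hj : j = j0
          · subst hj
            split_ifs with h5 <;> simp [h5]
          · rw [(F j).eval_update i (hj0 j hj)]
            split_ifs <;> simp [hj]
        rw [e2, card_union_of_disjoint]
        · congr 1
          split_ifs <;> simp
        · split_ifs
          · rw [disjoint_singleton_right]
            simp
          · simp
      rw [e3]
      simpa only [decide_eq_true_eq] using h9
    · push Not at hA
      -- the functions of the children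
      have hS : ∀ j, ∃ S : Finset (Y → ℤ), S.card ≤ B ^ (2 * (F j).reads i - 1) ∧
          ∀ z ∈ Z, (fun v => if (F j).reads i = 0 then 0 else
            (F j).eval (Function.update z i (y v))) ∈ S := by
        intro j
        by_cases hj : (F j).reads i = 0
        · refine ⟨{fun _ => 0}, ?_, fun z _ => ?_⟩
          · rw [card_singleton]
            exact Nat.one_le_pow _ _ hB0
          · rw [mem_singleton]
            funext v
            simp [hj]
        · have := hsj j
          obtain ⟨S, hS1, hS2⟩ := ih j (by omega) (hF.1 j) (by omega)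
          refine ⟨S, hS1, fun z hz => ?_⟩
          have h9 := hS2.self (bd (F j) (hF.1 j)) z hz
          have e : (fun v => if (F j).reads i = 0 then 0 else
              (F j).eval (Function.update z i (y v))) =
              fun v => (F j).eval (Function.update z i (y v)) := by
            funext v
            rw [if_neg hj]
          rw [e]
          exact h9
      choose S hS1 hS2 using hS
      obtain ⟨T, hT⟩ : ∃ T : Finset (Y → ℤ), T =
          ((range (k + 1)) ×ˢ (Fintype.piFinset S)).image (fun (c : ℕ × (Fin k → Y → ℤ)) =>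
            fun v => H (c.1 + (univ.filter (fun j : Fin k => 0 < c.2 j v)).card)) := ⟨_, rfl⟩
      obtain ⟨S', h1, h2⟩ := fam_of (bd (sym k H F) hF) hV T (fun z hz => by
        rw [hT, mem_image]
        refine ⟨((univ.filter (fun j => (F j).reads i = 0 ∧ 0 < (F j).eval z)).card,
          fun j v => if (F j).reads i = 0 then 0 else
            (F j).eval (Function.update z i (y v))), ?_, ?_⟩
        · rw [mem_product, mem_range, Fintype.mem_piFinset]
          refine ⟨?_, fun j => hS2 j z hz⟩
          have := card_filter_le (univ : Finset (Fin k))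
            (fun j => (F j).reads i = 0 ∧ 0 < (F j).eval z)
          rw [card_univ, Fintype.card_fin] at this
          omega
        · funext v
          simp only [eval]
          congr 1
          have e2 : univ.filter (fun j => 0 < (F j).eval (Function.update z i (y v))) =
              univ.filter (fun j => (F j).reads i = 0 ∧ 0 < (F j).eval z) ∪
              univ.filter (fun j => 0 < (if (F j).reads i = 0 then 0 else
                (F j).eval (Function.update z i (y v)))) := by
            ext j
            rw [mem_filter, mem_union, mem_filter, mem_filter]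
            by_cases hj : (F j).reads i = 0
            · rw [(F j).eval_update i hj]
              simp [hj]
            · simp [hj]
          rw [e2, card_union_of_disjoint]
          rw [disjoint_filter]
          rintro j - ⟨h5, -⟩ h6
          rw [if_pos h5] at h6
          exact lt_irrefl _ h6)
      have hcard : 2 ≤ (univ.filter (fun j => (F j).reads i ≠ 0)).card := by
        obtain ⟨j1, hj1⟩ : ∃ j1, (F j1).reads i ≠ 0 := by
          by_contra hc
          push Not at hc
          simp [hc] at h
        obtain ⟨j2, hj2, hj3⟩ := hA j1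
        have : ({j1, j2} : Finset (Fin k)) ⊆ univ.filter (fun j => (F j).reads i ≠ 0) := by
          intro j hj
          rw [mem_insert, mem_singleton] at hj
          rw [mem_filter]
          rcases hj with rfl | rfl
          · exact ⟨mem_univ _, hj1⟩
          · exact ⟨mem_univ _, hj3⟩
        have h3 := card_le_card this
        rwa [card_pair hj2.symm] at h3
      have hsum : ∑ j, (2 * (F j).reads i - 1) + 2 ≤ 2 * ∑ j, (F j).reads i := by
        have e3 : ∀ j, 2 * (F j).reads i - 1 + (if (F j).reads i ≠ 0 then 1 else 0) =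
            2 * (F j).reads i := by
          intro j
          split_ifs with h5 <;> omega
        have e4 : ∑ j, (2 * (F j).reads i - 1) + (univ.filter (fun j => (F j).reads i ≠ 0)).card =
            2 * ∑ j, (F j).reads i := by
          rw [card_filter, ← sum_add_distrib, mul_sum]
          exact sum_congr rfl fun j _ => e3 j
        omega
      refine ⟨S', h1.trans ?_, h2⟩
      have hTc : T.card ≤ (s + 1) * B ^ (∑ j, (2 * (F j).reads i - 1)) := by
        rw [hT]
        refine card_image_le.trans ?_
        rw [card_product, card_range, Fintype.card_piFinset]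
        apply Nat.mul_le_mul (by omega)
        rw [← prod_pow_eq_pow_sum]
        exact prod_le_prod' fun j _ => hS1 j
      calc (2 * V + 1) ^ 6 * T.card
          ≤ (2 * V + 1) ^ 6 * ((s + 1) * B ^ (∑ j, (2 * (F j).reads i - 1))) :=
            Nat.mul_le_mul_left _ hTc
        _ = (2 * V + 1) ^ 6 * (s + 1) * B ^ (∑ j, (2 * (F j).reads i - 1)) := by ring
        _ ≤ B * B ^ (∑ j, (2 * (F j).reads i - 1)) := Nat.mul_le_mul_right _ hB1
        _ = B ^ (∑ j, (2 * (F j).reads i - 1) + 1) := by rw [pow_succ']
        _ ≤ B ^ (2 * ∑ j, (F j).reads i - 1) := Nat.pow_le_pow_right hB0 (by omega)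

open Classical in
/-- Few subfunctions. -/
theorem subfunctions {Y : Type} {V : ℕ} {P : (∀ i, D i) → Prop} (hV : 1 ≤ V)
    (Z : Set (∀ i, D i)) (i : ι)
    (y : Y → D i) (hZ : ∀ z ∈ Z, ∀ v, P (Function.update z i (y v))) (s B : ℕ) (hq : 1 ≤ q)
    (hB : B = (2 * V + 1) ^ 6 * (s + 1) * q ^ (w - 1)) (F : Fml ι D w q) (hs : F.size ≤ s)
    (hF : F.Small V P) :
    ∃ S : Finset (Y → Bool), S.card ≤ 2 * B ^ (2 * F.reads i) ∧
      ∀ z ∈ Z, (fun v => F.accepts (Function.update z i (y v))) ∈ S := by
  have hB0 : 1 ≤ B := by
    rw [hB]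
    have h1 : 1 ≤ q ^ (w - 1) := Nat.one_le_pow _ _ hq
    have h2 : 1 ≤ (2 * V + 1) ^ 6 := Nat.one_le_pow _ _ (by omega)
    exact Nat.succ_le_of_lt (Nat.mul_pos (Nat.mul_pos h2 (by omega)) h1)
  by_cases h : F.reads i = 0
  · refine ⟨(univ : Finset Bool).image (fun c => fun _ => c), ?_, fun z _ => ?_⟩
    · refine card_image_le.trans ?_
      simp [h]
    · rw [mem_image]
      refine ⟨F.accepts z, mem_univ _, ?_⟩
      funext v
      unfold accepts
      rw [F.eval_update i h]
  · obtain ⟨S, h1, h2⟩ := F.fam hV Z i y hZ s B hq hB hs hF (by omega)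
    refine ⟨S.image (fun g => fun v => decide (0 < g v)), ?_, fun z hz => ?_⟩
    · refine card_image_le.trans (h1.trans ?_)
      calc B ^ (2 * F.reads i - 1) ≤ B ^ (2 * F.reads i) :=
          Nat.pow_le_pow_right hB0 (by omega)
        _ ≤ 2 * B ^ (2 * F.reads i) := by omega
    · rw [mem_image]
      exact ⟨_, h2.self (fun z hz v => Small.bd hV F hF _ (hZ z hz v)) z hz, rfl⟩

end Fml

end Pool.Agent.Y638.WF
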