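import Pool.Agent.TH697.Row.Promise

set_option autoImplicit false

/-! # Formulas which compute with short integers -/

namespace Pool.Agent.Y638.WF

open Finset

/-- A leaf which sees several items. The input consists of items `x i`, `i : ι`. The leaf computes an
arbitrary integral function of (at most) `w` items, each of which is seen through an arbitrary
function with `q` values. -/
structure Word (ι : Type) (D : ι → Type) (w q : ℕ) where
  /-- the items which are seen -/
  item : Fin w → ι
  /-- what is seen of them -/
  view : ∀ k, D (item k) → Fin q
  /-- the value of the leaf -/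
  out : (Fin w → Fin q) → ℤ

/-- Integral formulas: constants, arbitrary integral functions of one item, arbitrary integral
functions of `w` words, sums, products, maxima, minima, the sign test `pos` (is the value positive?
`1` or `0`), and gates `sym` of any fan-in `k` whose value is an arbitrary function of the number of
the inputs which are positive. -/
inductive Fml (ι : Type) (D : ι → Type) (w q : ℕ) : Type
  | const : ℤ → Fml ι D w q
  | item : (i : ι) → (D i → ℤ) → Fml ι D w q
  | word : Word ι D w q → Fml ι D w q
  | add : Fml ι D w q → Fml ι D w q → Fml ι D w q
  | mul : Fml ι D w q → Fml ι D w q → Fml ι D w q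
  | max : Fml ι D w q → Fml ι D w q → Fml ι D w q
  | min : Fml ι D w q → Fml ι D w q → Fml ι D w q
  | pos : Fml ι D w q → Fml ι D w q
  | sym : (k : ℕ) → (ℕ → ℤ) → (Fin k → Fml ι D w q) → Fml ι D w q

namespace Fml

variable {ι : Type} {D : ι → Type} {w q : ℕ}

/-- The value of the formula. -/
def eval : Fml ι D w q → (∀ i, D i) → ℤ
  | const c, _ => c
  | item i f, x => f (x i)
  | word τ, x => τ.out (fun k => τ.view k (x (τ.item k)))
  | add F G, x => F.eval x + G.eval x
  | mul F G, x => F.eval x * G.eval x
  | max F G, x => Max.max (F.eval x) (G.eval x)
  | min F G, x => Min.min (F.eval x) (G.eval x)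
  | pos F, x => if 0 < F.eval x then 1 else 0
  | sym _ h F, x => h (univ.filter (fun j => 0 < (F j).eval x)).card

/-- The size: the number of the leaves which are not constants, and of the wires which lead to gates
`sym`. -/
def size : Fml ι D w q → ℕ
  | const _ => 0
  | item _ _ => 1
  | word _ => 1
  | add F G => F.size + G.size
  | mul F G => F.size + G.size
  | max F G => F.size + G.size
  | min F G => F.size + G.size
  | pos F => F.size
  | sym k _ F => k + ∑ j, (F j).size

/-- The absolute value of the formula is at most `V` for all inputs with the property `P`. -/
def Bd (V : ℕ) (P : (∀ i, D i) → Prop) (F : Fml ι D w q) : Prop :=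
  ∀ x, P x → |F.eval x| ≤ V

/-- The absolute values of the formula and of all its subformulas are at most `V` for all inputs with
the property `P`. -/
def Small (V : ℕ) (P : (∀ i, D i) → Prop) : Fml ι D w q → Prop
  | const c => Bd (w := w) (q := q) V P (const c)
  | item i f => Bd (w := w) (q := q) V P (item i f)
  | word τ => Bd V P (word τ)
  | add F G => F.Small V P ∧ G.Small V P ∧ Bd V P (add F G)
  | mul F G => F.Small V P ∧ G.Small V P ∧ Bd V P (mul F G)
  | max F G => F.Small V P ∧ G.Small V P
  | min F G => F.Small V P ∧ G.Small V P
  | pos F => F.Small V P
  | sym k h F => (∀ j, (F j).Small V P) ∧ Bd V P (sym k h F)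

/-- The formula accepts the input if its value is positive. -/
def accepts (F : Fml ι D w q) (x : ∀ i, D i) : Bool := decide (0 < F.eval x)

end Fml

/-- Branching programs with `n` inner nodes. The nodes are numbered: `0` and `1` are the two sinks,
`2, 3, …, n + 1` are the inner nodes. An inner node is labelled with an integral formula, and its two
successors are nodes with smaller numbers. -/
inductive BP (ι : Type) (D : ι → Type) (w q : ℕ) : ℕ → Type
  | sinks : BP ι D w q 0
  | node : {n : ℕ} → BP ι D w q n → Fml ι D w q → (no yes : Fin (n + 2)) → BP ι D w q (n + 1)

namespace BP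

variable {ι : Type} {D : ι → Type} {w q : ℕ}

/-- The value of the sink which is reached from a node (`0` rejects, `1` accepts). An inner node
leads to its successor `yes` if its formula accepts the input. -/
def val : {n : ℕ} → BP ι D w q n → (∀ i, D i) → Fin (n + 2) → Bool
  | _, sinks, _, v => decide (v = 1)
  | _, node B F no yes, x, v =>
      Fin.lastCases (motive := fun _ => Bool) (if F.accepts x then B.val x yes else B.val x no)
        (fun u => B.val x u) v

/-- The size: the number of the inner nodes plus the sizes of all formulas. -/
def size : {n : ℕ} → BP ι D w q n → ℕ
  | _, sinks => 0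
  | _, node B F _ _ => B.size + (F.size + 1)

/-- All formulas, and all their subformulas, have absolute values at most `V` for all inputs with the
property `P`. -/
def Small (V : ℕ) (P : (∀ i, D i) → Prop) : {n : ℕ} → BP ι D w q n → Prop
  | _, sinks => True
  | _, node B F _ _ => B.Small V P ∧ F.Small V P

end BP

/-- A branching program of size at most `s`, with a start node, all of whose formulas and
subformulas have absolute values at most `V` for all inputs with the property `P`. -/
structure Program (ι : Type) (D : ι → Type) (w q V : ℕ) (P : (∀ i, D i) → Prop) (s : ℕ) where
  /-- number of inner nodes -/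
  nodes : ℕ
  bp : BP ι D w q nodes
  size_le : bp.size ≤ s
  small : bp.Small V P
  start : Fin (nodes + 2)

/-- The result of the computation. -/
def Program.eval {ι : Type} {D : ι → Type} {w q V : ℕ} {P : (∀ i, D i) → Prop} {s : ℕ}
    (B : Program ι D w q V P s) (x : ∀ i, D i) : Bool :=
  B.bp.val x B.start

end Pool.Agent.Y638.WF
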