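import Pool.Agent.Y638.WF.Core

set_option autoImplicit false

/-! # Lower bounds for integral formulas and programs -/

namespace Pool.Agent.Y638.WF

open Finset Pool.Agent.TH697.Form Pool.Agent.TH697.Row

section gen

variable {ι : Type} {D : ι → Type} [DecidableEq ι] {T Y : Type} [Fintype T]
  {Ω : Type} [Fintype Ω]

open Classical in
/-- If the bits of a string `z` which is encoded in the other items can be queried by item `i`
(up to a small number of errors), then the random function has many subfunctions in item `i`. -/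
theorem gen_err' (μ : Ω → ℝ) (hμ : IsProb μ) (G : Ω → (∀ i, D i) → Bool)
    (P : (∀ i, D i) → Prop) (f : (∀ i, D i) → Bool) (hG : ApproximatesOn μ G P f) (i : ι)
    (y : Y → D i) (S : Ω → Finset (Y → Bool)) (R : (T → Bool) → ∀ i, D i)
    (hS : ∀ ω z, (fun v => G ω (Function.update (R z) i (y v))) ∈ S ω)
    (r : T → ℕ) (Q : T → (T → Bool) → Y)
    (hQ : ∀ t z z', (∀ s, r s < r t → z s = z' s) → Q t z = Q t z') (hP : ∀ t z, P (Function.update (R z) i (y (Q t z)))) (δ : ℝ)
    (hf : ∑ z : T → Bool, ((univ.filter (fun t => f (Function.update (R z) i (y (Q t z))) ≠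
      z t)).card : ℝ) ≤ δ * Fintype.card T * 2 ^ Fintype.card T) :
    (49 / 600 - δ) * Fintype.card T * Real.log 2 ≤ ∑ ω, μ ω * Real.log (S ω).card := by
  obtain ⟨N, hN⟩ : ∃ N, N = Fintype.card T := ⟨_, rfl⟩
  rw [← hN] at hf
  obtain ⟨E, hE⟩ : ∃ E : Ω → ℝ, E = fun ω => (∑ z : T → Bool,
      ((univ.filter (fun t => G ω (Function.update (R z) i (y (Q t z))) ≠ z t)).card : ℝ)) /
        2 ^ Fintype.card T := ⟨_, rfl⟩
  have h6 : (0 : ℝ) < Real.log 2 := Real.log_pos (by norm_num)
  have h1 : ∀ ω, Real.log 2 * ((415 / 1000 : ℝ) * N - E ω) ≤ Real.log (S ω).card := by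
    intro ω
    have hne : 1 ≤ (S ω).card := card_pos.2 ⟨_, hS ω (fun _ => false)⟩
    have hc := coding r Q hQ (S ω) hne
      (fun z => fun v => G ω (Function.update (R z) i (y v))) (fun z => hS ω z)
    have h5 := log_43
    have h7 : (0 : ℝ) ≤ N := Nat.cast_nonneg N
    have h8 : (N : ℝ) * Real.log (4 / 3) - Real.log 2 * E ω ≤ Real.log (S ω).card := by
      rw [hN]
      simp only [hE]
      exact hc
    have h9 := mul_le_mul_of_nonneg_left h5 h7
    linarith
  have h2 : ∑ ω, μ ω * E ω ≤ N / 3 + δ * N := by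
    have e5 : ∀ ω, μ ω * E ω ≤ (∑ z : T → Bool, ∑ t : T,
        (if G ω (Function.update (R z) i (y (Q t z))) ≠ f (Function.update (R z) i (y (Q t z)))
          then μ ω else 0)) / 2 ^ N + μ ω * (δ * N) := by
      intro ω
      have h8 : ∑ z : T → Bool,
          ((univ.filter (fun t => G ω (Function.update (R z) i (y (Q t z))) ≠ z t)).card : ℝ) ≤
          ∑ z : T → Bool, ((univ.filter (fun t => G ω (Function.update (R z) i (y (Q t z))) ≠
            f (Function.update (R z) i (y (Q t z))))).card : ℝ) + δ * N * 2 ^ N := by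
        have h9 : ∑ z : T → Bool,
          ((univ.filter (fun t => G ω (Function.update (R z) i (y (Q t z))) ≠ z t)).card : ℝ) ≤
          ∑ z : T → Bool, (((univ.filter (fun t => G ω (Function.update (R z) i (y (Q t z))) ≠
            f (Function.update (R z) i (y (Q t z))))).card : ℝ) +
            ((univ.filter (fun t => f (Function.update (R z) i (y (Q t z))) ≠ z t)).card : ℝ)) := by
          apply sum_le_sum
          intro z _
          have h10 : univ.filter (fun t => G ω (Function.update (R z) i (y (Q t z))) ≠ z t) ⊆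
              univ.filter (fun t => G ω (Function.update (R z) i (y (Q t z))) ≠
                f (Function.update (R z) i (y (Q t z)))) ∪
              univ.filter (fun t => f (Function.update (R z) i (y (Q t z))) ≠ z t) := by
            intro t
            rw [mem_union, mem_filter, mem_filter, mem_filter]
            rintro ⟨-, h⟩
            by_cases h11 : G ω (Function.update (R z) i (y (Q t z))) =
                f (Function.update (R z) i (y (Q t z)))
            · right
              exact ⟨mem_univ _, fun h12 => h (h11.trans h12)⟩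
            · left
              exact ⟨mem_univ _, h11⟩
          exact_mod_cast (card_le_card h10).trans (card_union_le _ _)
        rw [sum_add_distrib] at h9
        linarith
      have e6 : ∑ z : T → Bool, ∑ t : T, (if G ω (Function.update (R z) i (y (Q t z))) ≠
          f (Function.update (R z) i (y (Q t z))) then μ ω else 0) =
          μ ω * ∑ z : T → Bool, ((univ.filter (fun t => G ω (Function.update (R z) i (y (Q t z))) ≠
            f (Function.update (R z) i (y (Q t z))))).card : ℝ) := by
        rw [mul_sum]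
        refine sum_congr rfl fun z _ => ?_
        rw [card_filter, Nat.cast_sum, mul_sum]
        refine sum_congr rfl fun t _ => ?_
        split_ifs <;> simp
      rw [e6]
      simp only [hE]
      rw [← hN]
      have h12 := mul_le_mul_of_nonneg_left h8 (hμ.nonneg ω)
      rw [mul_add] at h12
      have h13 := div_le_div_of_nonneg_right h12 (by positivity : (0 : ℝ) ≤ 2 ^ N)
      rw [add_div] at h13
      calc _ = μ ω * (∑ z : T → Bool,
          ((univ.filter (fun t => G ω (Function.update (R z) i (y (Q t z))) ≠ z t)).card : ℝ)) /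
            2 ^ N := by rw [mul_div_assoc]
        _ ≤ _ := h13
        _ = _ := by
          congr 1
          field_simp
    have e1 : ∑ ω, μ ω * E ω ≤ (∑ z : T → Bool, ∑ t : T,
        ∑ ω ∈ univ.filter (fun ω => G ω (Function.update (R z) i (y (Q t z))) ≠
          f (Function.update (R z) i (y (Q t z)))), μ ω) / 2 ^ N + δ * N := by
      refine (sum_le_sum fun ω _ => e5 ω).trans (le_of_eq ?_)
      rw [sum_add_distrib, ← sum_mul, hμ.sum_one, one_mul, ← sum_div, sum_comm]
      congr 2
      refine sum_congr rfl fun z _ => ?_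
      rw [sum_comm]
      refine sum_congr rfl fun t _ => ?_
      rw [sum_filter]
    refine e1.trans (add_le_add_left ?_ _)
    rw [div_le_iff₀ (by positivity)]
    calc _ ≤ ∑ _z : T → Bool, ∑ _t : T, (1 / 3 : ℝ) :=
          sum_le_sum fun z _ => sum_le_sum fun t _ => hG _ (hP t z)
      _ = N / 3 * 2 ^ N := by
          simp only [sum_const, card_univ, nsmul_eq_mul, Fintype.card_fun, Fintype.card_bool,
            ← hN]
          push_cast
          ring
  have h3 := sum_le_sum fun ω (_ : ω ∈ (univ : Finset Ω)) =>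
    mul_le_mul_of_nonneg_left (h1 ω) (hμ.nonneg ω)
  have e2 : ∑ ω, μ ω * (Real.log 2 * ((415 / 1000 : ℝ) * N - E ω))
      = Real.log 2 * ((415 / 1000 : ℝ) * N - ∑ ω, μ ω * E ω) := by
    have : ∀ ω, μ ω * (Real.log 2 * ((415 / 1000 : ℝ) * N - E ω))
        = Real.log 2 * ((415 / 1000 : ℝ) * N) * μ ω - Real.log 2 * (μ ω * E ω) := by
      intro ω; ring
    simp_rw [this]
    rw [sum_sub_distrib, ← mul_sum, ← mul_sum, hμ.sum_one]
    ring
  rw [e2] at h3
  refine le_trans ?_ h3
  rw [← hN, mul_comm _ (Real.log 2)]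
  apply mul_le_mul_of_nonneg_left _ h6.le
  linarith

end gen

section

variable {ι : Type} {D : ι → Type} [DecidableEq ι] (T : Type) [Fintype T]

open Classical in
/-- The bits of a string which is encoded in the other items can be queried by values of item `i`
(from a set `A`), with at most a `δ` fraction of errors; the inputs always have the property `P`. -/
def Asks (δ : ℝ) (P : (∀ i, D i) → Prop) (f : (∀ i, D i) → Bool) (i : ι) : Prop :=
  ∃ (A : Set (D i)) (r : T → ℕ) (Q : T → (T → Bool) → D i) (R : (T → Bool) → ∀ i, D i),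
    (∀ t z, Q t z ∈ A) ∧
    (∀ t z z', (∀ s, r s < r t → z s = z' s) → Q t z = Q t z') ∧
    (∀ a ∈ A, ∀ z, P (Function.update (R z) i a)) ∧
    ∑ z : T → Bool, ((univ.filter (fun t => f (Function.update (R z) i (Q t z)) ≠
      z t)).card : ℝ) ≤ δ * Fintype.card T * 2 ^ Fintype.card T

variable {T}

theorem asks_of {δ : ℝ} {P : (∀ i, D i) → Prop} {f : (∀ i, D i) → Bool} {i : ι}
    [inst : Fintype (T → Bool)]
    (A : Set (D i)) (r : T → ℕ) (Q : T → (T → Bool) → D i) (R : (T → Bool) → ∀ i, D i)
    (h2 : ∀ t z, Q t z ∈ A)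
    (h3 : ∀ t z z', (∀ s, r s < r t → z s = z' s) → Q t z = Q t z')
    (h4 : ∀ a ∈ A, ∀ z, P (Function.update (R z) i a))
    (h5 : ∑ z : T → Bool, ((univ.filter (fun t => f (Function.update (R z) i (Q t z)) ≠
      z t)).card : ℝ) ≤ δ * Fintype.card T * 2 ^ Fintype.card T) : Asks T δ P f i := by
  classical
  refine ⟨A, r, Q, R, h2, h3, h4, ?_⟩
  have e : inst = @Pi.instFintype T (fun _ => Bool) (Classical.decEq T) _ _ :=
    Subsingleton.elim _ _
  subst e
  exact h5

end

namespace BP

variable {ι : Type} {D : ι → Type} [DecidableEq ι] {w q : ℕ}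

/-- The number of leaves which see item `i`. -/
def reads (i : ι) : {n : ℕ} → BP ι D w q n → ℕ
  | _, sinks => 0
  | _, node B F _ _ => B.reads i + F.reads i

/-- The number of inner nodes whose formulas see item `i`. -/
def live (i : ι) : {n : ℕ} → BP ι D w q n → ℕ
  | _, sinks => 0
  | _, node B F _ _ => B.live i + if F.reads i = 0 then 0 else 1

theorem live_le (i : ι) : ∀ {n : ℕ} (B : BP ι D w q n), B.live i ≤ n
  | _, sinks => by simp [live]
  | _, node B F _ _ => by
      have := live_le i B
      simp only [live]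
      split_ifs <;> omega

theorem live_le_reads (i : ι) : ∀ {n : ℕ} (B : BP ι D w q n), B.live i ≤ B.reads i
  | _, sinks => by simp [live]
  | _, node B F _ _ => by
      have := live_le_reads i B
      simp only [live, reads]
      split_ifs <;> omega

theorem nodes_le_size : ∀ {n : ℕ} (B : BP ι D w q n), n ≤ B.size
  | _, sinks => by simp [size]
  | _, node B F _ _ => by
      have := nodes_le_size B
      simp only [size]
      omega

theorem sum_reads_le (I : Finset ι) (hw : 1 ≤ w) :
    ∀ {n : ℕ} (B : BP ι D w q n), ∑ i ∈ I, B.reads i ≤ w * B.size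
  | _, sinks => by simp [reads]
  | _, node B F _ _ => by
      simp only [reads, size, sum_add_distrib]
      have h1 := sum_reads_le I hw B
      have h2 := Fml.sum_reads_le I hw F
      rw [mul_add, mul_add]
      omega

open Classical in
/-- The functions of item `i` at the nodes belong to a small family. -/
theorem families {Y : Type} {V : ℕ} {P : (∀ i, D i) → Prop} (hV : 1 ≤ V)
    (Z : Set (∀ i, D i)) (i : ι)
    (y : Y → D i) (hZ : ∀ z ∈ Z, ∀ v, P (Function.update z i (y v))) (s E : ℕ) (hq : 1 ≤ q)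
    (hE : E = (2 * V + 1) ^ 6 * (s + 1) * q ^ (w - 1)) :
    ∀ {n : ℕ} (B : BP ι D w q n), B.size ≤ s → B.Small V P →
    ∃ 𝒮 : Finset (Fin (B.live i + 2) → Y → Bool),
      𝒮.card ≤ (n + 2) ^ (2 * B.live i) * (2 * E ^ 2) ^ B.reads i ∧
      ∀ z ∈ Z, ∃ t ∈ 𝒮, ∀ v : Fin (n + 2), ∃ j : Fin (B.live i + 2),
        ∀ u, B.val (Function.update z i (y u)) v = t j u
  | _, sinks, _, _ => by
      refine ⟨{fun j _ => decide (j = 1)}, ?_, fun x _ => ⟨_, mem_singleton_self _, ?_⟩⟩
      · rw [card_singleton]
        exact Nat.one_le_iff_ne_zero.2 (by simp [live, reads])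
      intro v
      exact ⟨v, fun d => rfl⟩
  | _, @node _ _ _ _ n B F no yes, hs, hsm => by
      have hE1 : 1 ≤ E := by
        rw [hE]
        have h1 : 1 ≤ q ^ (w - 1) := Nat.one_le_pow _ _ hq
        have h2 : 1 ≤ (2 * V + 1) ^ 6 := Nat.one_le_pow _ _ (by omega)
        exact Nat.succ_le_of_lt (Nat.mul_pos (Nat.mul_pos h2 (by omega)) h1)
      simp only [size] at hs
      obtain ⟨𝒮, hcard, hS⟩ := families hV Z i y hZ s E hq hE B (by omega) hsm.1
      have hpos : 1 ≤ (2 * E ^ 2) := by
        have : 1 ≤ E ^ 2 := Nat.one_le_pow _ _ hE1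
        omega
      by_cases hF : F.reads i = 0
      · have hr : (node B F no yes).live i = B.live i := by simp [live, hF]
        rw [hr]
        refine ⟨𝒮, hcard.trans (Nat.mul_le_mul (Nat.pow_le_pow_left (by omega) _)
          (Nat.pow_le_pow_right hpos (by simp [reads]))), fun z hz => ?_⟩
        obtain ⟨t, ht, hv⟩ := hS z hz
        refine ⟨t, ht, fun v => ?_⟩
        have hacc : ∀ d, F.accepts (Function.update z i d) = F.accepts z := by
          intro d
          unfold Fml.accepts
          rw [F.eval_update i hF]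
        refine Fin.lastCases ?_ (fun u => ?_) v
        · cases hp : F.accepts z with
          | true =>
            obtain ⟨j, hj⟩ := hv yes
            refine ⟨j, fun u => ?_⟩
            simp only [val, Fin.lastCases_last, hacc, hp, if_true]
            exact hj u
          | false =>
            obtain ⟨j, hj⟩ := hv no
            refine ⟨j, fun u => ?_⟩
            simp only [val, Fin.lastCases_last, hacc, hp, Bool.false_eq_true, if_false]
            exact hj u
        · obtain ⟨j, hj⟩ := hv u
          refine ⟨j, fun u' => ?_⟩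
          simp only [val, Fin.lastCases_castSucc]
          exact hj u'
      · obtain ⟨S1, hS1, hS2⟩ := F.subfunctions hV Z i y hZ s E hq hE (by omega) hsm.2
        have hr : (node B F no yes).live i = B.live i + 1 := by simp [live, hF]
        rw [hr]
        refine ⟨((𝒮 ×ˢ (univ : Finset (Fin (B.live i + 2) × Fin (B.live i + 2)))) ×ˢ
          S1).image
          (fun a => Fin.lastCases (motive := fun _ => Y → Bool)
            (fun u => if a.2 u then a.1.1 a.1.2.1 u else a.1.1 a.1.2.2 u)
            (fun j => a.1.1 j)), ?_, ?_⟩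
        · refine card_image_le.trans ?_
          rw [card_product, card_product, card_univ, Fintype.card_prod, Fintype.card_fin]
          have h1 : B.live i ≤ n := live_le i B
          have hS3 : S1.card ≤ (2 * E ^ 2) ^ F.reads i := by
            refine hS1.trans ?_
            rw [mul_pow, ← pow_mul]
            apply Nat.mul_le_mul_right
            calc 2 = 2 ^ 1 := rfl
              _ ≤ 2 ^ F.reads i := Nat.pow_le_pow_right (by norm_num) (by omega)
          calc 𝒮.card * ((B.live i + 2) * (B.live i + 2)) * S1.card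
              ≤ (((n + 1 + 2) ^ (2 * B.live i) * (2 * E ^ 2) ^ B.reads i) *
                  ((n + 1 + 2) * (n + 1 + 2))) * (2 * E ^ 2) ^ F.reads i := by
                apply Nat.mul_le_mul _ hS3
                apply Nat.mul_le_mul
                · exact hcard.trans (Nat.mul_le_mul_right _ (Nat.pow_le_pow_left (by omega) _))
                · exact Nat.mul_le_mul (by omega) (by omega)
            _ = (n + 1 + 2) ^ (2 * (B.live i + 1)) *
                  (2 * E ^ 2) ^ (node B F no yes).reads i := by
                simp only [reads]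
                rw [show 2 * (B.live i + 1) = 2 * B.live i + 2 by ring, pow_add, pow_add]
                ring
        · intro z hz
          obtain ⟨t, ht, hv⟩ := hS z hz
          obtain ⟨j1, hj1⟩ := hv yes
          obtain ⟨j2, hj2⟩ := hv no
          refine ⟨_, mem_image.2 ⟨((t, (j1, j2)), fun u => F.accepts (Function.update z i (y u))),
            mem_product.2 ⟨mem_product.2 ⟨ht, mem_univ _⟩, hS2 z hz⟩, rfl⟩, ?_⟩
          intro v
          refine Fin.lastCases ?_ (fun u => ?_) v
          · refine ⟨Fin.last _, fun u => ?_⟩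
            simp only [val, Fin.lastCases_last]
            rw [hj1 u, hj2 u]
          · obtain ⟨j, hj⟩ := hv u
            refine ⟨j.castSucc, fun u' => ?_⟩
            simp only [val, Fin.lastCases_castSucc]
            exact hj u'

open Classical in
/-- Few subfunctions. -/
theorem subfunctions {Y : Type} {V : ℕ} {P : (∀ i, D i) → Prop} (hV : 1 ≤ V)
    (Z : Set (∀ i, D i)) (i : ι)
    (y : Y → D i) (hZ : ∀ z ∈ Z, ∀ v, P (Function.update z i (y v))) (s E : ℕ) (hq : 1 ≤ q)
    (hE : E = (2 * V + 1) ^ 6 * (s + 1) * q ^ (w - 1)) {n : ℕ} (B : BP ι D w q n)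
    (hs : B.size ≤ s) (hsm : B.Small V P) (v : Fin (n + 2)) :
    ∃ S : Finset (Y → Bool), S.card ≤ (s + 2) * (2 * (s + 2) ^ 2 * E ^ 2) ^ B.reads i ∧
      ∀ z ∈ Z, (fun u => B.val (Function.update z i (y u)) v) ∈ S := by
  obtain ⟨𝒮, hcard, hS⟩ := families hV Z i y hZ s E hq hE B hs hsm
  refine ⟨(𝒮 ×ˢ (univ : Finset (Fin (B.live i + 2)))).image (fun a => a.1 a.2), ?_, ?_⟩
  · refine card_image_le.trans ?_
    rw [card_product, card_univ, Fintype.card_fin]
    have h1 : B.live i ≤ n := live_le i B
    have h2 : B.live i ≤ B.reads i := live_le_reads i B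
    have h3 : n ≤ B.size := nodes_le_size B
    calc 𝒮.card * (B.live i + 2) ≤
          ((s + 2) ^ (2 * B.reads i) * (2 * E ^ 2) ^ B.reads i) * (s + 2) := by
          apply Nat.mul_le_mul _ (by omega)
          refine hcard.trans (Nat.mul_le_mul_right _ ?_)
          calc (n + 2) ^ (2 * B.live i) ≤ (s + 2) ^ (2 * B.live i) :=
                Nat.pow_le_pow_left (by omega) _
            _ ≤ (s + 2) ^ (2 * B.reads i) := Nat.pow_le_pow_right (by omega) (by omega)
      _ = _ := by
          rw [pow_mul, ← mul_pow]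
          ring
  · intro z hz
    obtain ⟨t, ht, hv⟩ := hS z hz
    obtain ⟨j, hj⟩ := hv v
    exact mem_image.2 ⟨(t, j), mem_product.2 ⟨ht, mem_univ _⟩, by funext u; exact (hj u).symm⟩

end BP

section

variable {ι : Type} {D : ι → Type} [DecidableEq ι] {w q : ℕ} {T : Type} [Fintype T] {Ω : Type}
  [Fintype Ω]

/-- The lower bound for random branching programs. -/
theorem program_lower (μ : Ω → ℝ) (hμ : IsProb μ) (V s : ℕ) (P : (∀ i, D i) → Prop)
    (B : Ω → Program ι D w q V P s) (f : (∀ i, D i) → Bool)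
    (hF : ApproximatesOn μ (fun ω => (B ω).eval) P f) (hV : 1 ≤ V)
    (hq : 1 ≤ q) (hw : 1 ≤ w) (δ : ℝ) (I : Finset ι) (h : ∀ i ∈ I, Asks T δ P f i) :
    (I.card : ℝ) * ((49 / 600 - δ) * Fintype.card T - Real.logb 2 (s + 2)) ≤
      w * (1 + 12 * Real.logb 2 (2 * V + 1) + 4 * Real.logb 2 (s + 2) +
        2 * (w - 1) * Real.logb 2 q) * s := by
  classical
  have h6 : (0 : ℝ) < Real.log 2 := Real.log_pos (by norm_num)
  have hs0 : (0 : ℝ) ≤ s := Nat.cast_nonneg s
  have hV0 : (1 : ℝ) ≤ V := by exact_mod_cast hV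
  have hlq : 0 ≤ Real.log (q : ℝ) := Real.log_nonneg (by exact_mod_cast hq)
  have hls : 0 ≤ Real.log ((s : ℝ) + 2) := Real.log_nonneg (by linarith)
  have hlV : 0 ≤ Real.log (2 * (V : ℝ) + 1) := Real.log_nonneg (by linarith)
  have hw' : ((w - 1 : ℕ) : ℝ) = (w : ℝ) - 1 := by
    rw [Nat.cast_sub hw, Nat.cast_one]
  have hw1 : (0 : ℝ) ≤ (w : ℝ) - 1 := by rw [← hw']; positivity
  obtain ⟨E, hE⟩ : ∃ E, E = (2 * V + 1) ^ 6 * (s + 1) * q ^ (w - 1) := ⟨_, rfl⟩
  obtain ⟨c, hc⟩ : ∃ c : ℝ, c = Real.log 2 + 12 * Real.log (2 * V + 1) + 4 * Real.log (s + 2) +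
      2 * (w - 1) * Real.log q := ⟨_, rfl⟩
  have hc0 : 0 ≤ c := by rw [hc]; positivity
  have hq' : (0 : ℝ) < q := by exact_mod_cast hq
  have hEpos : (0 : ℝ) < E := by
    rw [hE]
    push_cast
    positivity
  have hcE : Real.log (2 * ((s : ℝ) + 2) ^ 2 * E ^ 2) ≤ c := by
    have h1 : Real.log ((s : ℝ) + 1) ≤ Real.log (s + 2) :=
      Real.log_le_log (by positivity) (by linarith)
    rw [hc, hE]
    push_cast
    rw [Real.log_mul (by positivity) (by positivity), Real.log_mul (by positivity) (by positivity),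
      Real.log_pow, Real.log_pow, Real.log_mul (by positivity) (by positivity),
      Real.log_mul (by positivity) (by positivity), Real.log_pow, Real.log_pow, hw']
    push_cast
    linarith
  have h1 : ∀ i ∈ I, (49 / 600 - δ) * Fintype.card T * Real.log 2
      ≤ ∑ ω, μ ω * (Real.log (s + 2) + c * ((B ω).bp.reads i : ℝ)) := by
    intro i hi
    obtain ⟨A, r, Q, R, hQA, hQ, hP, hf⟩ := h i hi
    obtain ⟨y, hy⟩ : ∃ y : {d // d ∈ A} → D i, y = fun v => v.1 := ⟨_, rfl⟩
    have hZ : ∀ z ∈ Set.range R, ∀ v, P (Function.update z i (y v)) := by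
      rintro _ ⟨z, rfl⟩ v
      rw [hy]
      exact hP v.1 v.2 z
    choose S hS1 hS2 using fun ω =>
      BP.subfunctions hV (Set.range R) i y hZ s E hq hE (B ω).bp (B ω).size_le (B ω).small
        (B ω).start
    refine (gen_err' μ hμ (fun ω => (B ω).eval) P f hF i y S R (fun ω z => hS2 ω _ ⟨z, rfl⟩) r
      (fun t z => ⟨Q t z, hQA t z⟩) (fun t z z' hz => Subtype.ext (hQ t z z' hz))
      (fun t z => hZ _ ⟨z, rfl⟩ _) δ (by rw [hy]; exact hf)).trans ?_
    apply sum_le_sum
    intro ω _
    apply mul_le_mul_of_nonneg_left _ (hμ.nonneg ω)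
    have hne : 1 ≤ (S ω).card := card_pos.2 ⟨_, hS2 ω _ ⟨fun _ => false, rfl⟩⟩
    have h2 : ((S ω).card : ℝ) ≤
        ((s : ℝ) + 2) * (2 * ((s : ℝ) + 2) ^ 2 * (E : ℝ) ^ 2) ^ (B ω).bp.reads i := by
      exact_mod_cast hS1 ω
    have h4 := Real.log_le_log (by exact_mod_cast hne) h2
    rw [Real.log_mul (by positivity) (by positivity), Real.log_pow] at h4
    have h5 : ((B ω).bp.reads i : ℝ) * Real.log (2 * ((s : ℝ) + 2) ^ 2 * (E : ℝ) ^ 2) ≤
        ((B ω).bp.reads i : ℝ) * c := mul_le_mul_of_nonneg_left hcE (Nat.cast_nonneg _)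
    linarith
  have h2 := sum_le_sum h1
  rw [sum_const, nsmul_eq_mul, sum_comm] at h2
  have h3 : ∑ ω, ∑ i ∈ I, μ ω * (Real.log (s + 2) + c * ((B ω).bp.reads i : ℝ)) ≤
      I.card * Real.log (s + 2) + c * w * s := by
    have e1 : (I.card : ℝ) * Real.log (s + 2) + c * w * s =
        ∑ ω, μ ω * (I.card * Real.log (s + 2) + c * w * s) := by
      rw [← sum_mul, hμ.sum_one, one_mul]
    rw [e1]
    apply sum_le_sum
    intro ω _
    rw [← mul_sum]
    apply mul_le_mul_of_nonneg_left _ (hμ.nonneg ω)
    rw [sum_add_distrib, sum_const, nsmul_eq_mul, ← mul_sum]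
    have h5 : ∑ i ∈ I, ((B ω).bp.reads i : ℝ) ≤ w * s := by
      have h8 : ∑ i ∈ I, (B ω).bp.reads i ≤ w * s :=
        (BP.sum_reads_le I hw (B ω).bp).trans (Nat.mul_le_mul_left _ (B ω).size_le)
      exact_mod_cast h8
    have h7 := mul_le_mul_of_nonneg_left h5 hc0
    linarith
  have h4 := h2.trans h3
  have h7 : w * (1 + 12 * Real.logb 2 (2 * V + 1) + 4 * Real.logb 2 (s + 2) +
      2 * (w - 1) * Real.logb 2 q) * s * Real.log 2 = c * w * s := by
    rw [hc]
    simp only [Real.logb]
    field_simp
  have h8 : (I.card : ℝ) * ((49 / 600 - δ) * Fintype.card T - Real.logb 2 (s + 2)) *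
      Real.log 2 =
      I.card * ((49 / 600 - δ) * Fintype.card T * Real.log 2) - I.card * Real.log (s + 2) := by
    rw [Real.logb]
    field_simp
  have h5 : (I.card : ℝ) * ((49 / 600 - δ) * Fintype.card T - Real.logb 2 (s + 2)) *
      Real.log 2 ≤ w * (1 + 12 * Real.logb 2 (2 * V + 1) + 4 * Real.logb 2 (s + 2) +
      2 * (w - 1) * Real.logb 2 q) * s * Real.log 2 := by
    rw [h7, h8]
    linarith
  exact le_of_mul_le_mul_right h5 h6

end

end Pool.Agent.Y638.WF
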